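import Pool.Agent.TH930.UD.Avg3

set_option autoImplicit false

/-! Both bounds for a set of values of `k`. -/

namespace Pool.Agent.TH930.UD

open Finset
open Pool.Agent.H499R2.ND (Td)
open Pool.Agent.H319R2 (beta)
open Pool.Agent.TH930.EBQ (T)

theorem Td_neg {k : ℤ} (hk : Odd k) (x : ℤ) : Td (-k) (-x) = -Td k x := by
  have h := T_mul2 (g := -1) (by decide) hk x
  have e1 : (-1 : ℤ) * k = -k := by ring
  have e2 : (-1 : ℤ) * x = -x := by ring
  have e3 : (-1 : ℤ) * T k x = -T k x := by ring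
  rw [e1, e2, e3] at h
  exact h

theorem iter_neg {k : ℤ} (hk : Odd k) (n : ℕ) (x : ℤ) : (Td (-k))^[n] (-x) = -(Td k)^[n] x := by
  induction n generalizing x with
  | zero => rfl
  | succ n ih => rw [Function.iterate_succ_apply, Function.iterate_succ_apply, Td_neg hk, ih]

theorem cnt_neg {k : ℤ} (hk : Odd k) (X Y : ℝ) : cnt (-k) X Y = cnt k X Y := by
  unfold cnt
  congr 1
  have h : {x : ℤ | |(x : ℝ)| ≤ X ∧ ∀ n : ℕ, Y < |(((Td (-k))^[n] x : ℤ) : ℝ)|} =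
      (fun x : ℤ => -x) '' {x : ℤ | |(x : ℝ)| ≤ X ∧ ∀ n : ℕ, Y < |(((Td k)^[n] x : ℤ) : ℝ)|} := by
    ext x
    simp only [Set.mem_ofPred_eq, Set.mem_image]
    constructor
    · rintro ⟨h1, h2⟩
      refine ⟨-x, ⟨by push_cast; rwa [abs_neg], fun n => ?_⟩, neg_neg x⟩
      have h3 := h2 n
      have h4 := iter_neg hk n (-x)
      rw [neg_neg] at h4
      rw [h4, Int.cast_neg, abs_neg] at h3
      exact h3
    · rintro ⟨z, ⟨h1, h2⟩, rfl⟩
      refine ⟨by push_cast; rwa [abs_neg], fun n => ?_⟩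
      rw [iter_neg hk n z, Int.cast_neg, abs_neg]
      exact h2 n
  rw [h]
  exact Set.ncard_image_of_injective _ neg_injective

theorem cnt_nonneg (k : ℤ) (X Y : ℝ) : 0 ≤ cnt k X Y := Nat.cast_nonneg _

theorem cnt_abs {k : ℤ} (hk : Odd k) (X Y : ℝ) : cnt (k.natAbs : ℤ) X Y = cnt k X Y := by
  rcases Int.natAbs_eq k with h | h
  · rw [← h]
  · have hk' : Odd (k.natAbs : ℤ) := by
      rw [h] at hk
      exact odd_neg.1 hk
    conv_rhs => rw [h]
    rw [cnt_neg hk']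

/-- BOTH BOUNDS -/
theorem set_saving {c : ℝ} (hc0 : 0 < c) (hc : c < 1 - beta) {ε : ℝ} (hε : 0 < ε) :
    ∃ C : ℝ, 0 < C ∧ ∀ D X Y : ℝ, 1 ≤ D → 1 ≤ X → D ^ (1 + ε) ≤ Y → ∀ G : Finset ℤ,
    (∀ k ∈ G, Odd k ∧ ¬ (3 : ℤ) ∣ k ∧ |(k : ℝ)| ≤ D) →
    ∑ k ∈ G, cnt k X Y ≤ C * (X / Y ^ c) * min (G.card : ℝ) (D ^ (1 - c)) := by
  classical
  have hb0 := Pool.Agent.TH930.PS.beta_pos
  obtain ⟨C₁, hC₁, h₁⟩ := level_saving hc0 hc hε
  obtain ⟨C₂, hC₂, h₂⟩ := avg_saving hc0 hc hε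
  refine ⟨max C₁ (2 * C₂), lt_max_of_lt_left hC₁, ?_⟩
  intro D X Y hD hX hDY G hG
  have hD0 : 0 < D := by linarith
  have hY1 : 1 ≤ Y := (Real.one_le_rpow hD (by linarith)).trans hDY
  have hY0 : 0 < Y := by linarith
  have hq : 0 ≤ X / Y ^ c := by positivity
  rw [mul_min_of_nonneg _ _ (by positivity)]
  apply le_min
  · have h3 : ∀ k ∈ G, cnt k X Y ≤ C₁ * (X / Y ^ c) := by
      intro k hk
      obtain ⟨a1, a2, a3⟩ := hG k hk
      apply h₁ k a1 a2 X Y hX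
      exact (Real.rpow_le_rpow (abs_nonneg _) a3 (by linarith)).trans hDY
    calc ∑ k ∈ G, cnt k X Y ≤ G.card • (C₁ * (X / Y ^ c)) := sum_le_card_nsmul _ _ _ h3
      _ = C₁ * (X / Y ^ c) * G.card := by rw [nsmul_eq_mul]; ring
      _ ≤ _ := by
          apply mul_le_mul_of_nonneg_right _ (Nat.cast_nonneg _)
          exact mul_le_mul_of_nonneg_right (le_max_left _ _) hq
  · set N : ℕ := ⌊D⌋₊ with hN
    have hN1 : 1 ≤ N := Nat.le_floor (by exact_mod_cast hD)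
    have hND : (N : ℝ) ≤ D := Nat.floor_le hD0.le
    have hN0 : (0 : ℝ) < N := by exact_mod_cast hN1
    set F : Finset ℕ := (Icc 1 N).filter (fun κ => κ % 2 = 1 ∧ ¬ 3 ∣ κ) with hF
    have hmaps : ∀ k ∈ G, k.natAbs ∈ F := by
      intro k hk
      obtain ⟨a1, a2, a3⟩ := hG k hk
      rw [hF, mem_filter, mem_Icc]
      have b1 := Int.natAbs_odd.2 a1
      refine ⟨⟨b1.pos, ?_⟩, Nat.odd_iff.1 b1, ?_⟩
      · apply Nat.le_floor
        rw [Nat.cast_natAbs, Int.cast_abs]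
        exact a3
      · intro h
        exact a2 (Int.natCast_dvd.2 h)
    have h3 : ∑ k ∈ G, cnt k X Y ≤ 2 * ∑ κ ∈ F, cnt (κ : ℤ) X Y := by
      rw [← sum_fiberwise_of_maps_to hmaps, mul_sum]
      apply sum_le_sum
      intro κ _
      have e1 : ∀ k ∈ G.filter (fun k => k.natAbs = κ), cnt k X Y ≤ cnt (κ : ℤ) X Y := by
        intro k hk
        rw [mem_filter] at hk
        rw [← cnt_abs (hG k hk.1).1 X Y, hk.2]
      refine (sum_le_card_nsmul _ _ _ e1).trans ?_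
      rw [nsmul_eq_mul]
      apply mul_le_mul_of_nonneg_right _ (cnt_nonneg _ _ _)
      have e2 : G.filter (fun k => k.natAbs = κ) ⊆ {(κ : ℤ), -(κ : ℤ)} := by
        intro k hk
        rw [mem_filter] at hk
        rw [mem_insert, mem_singleton]
        rcases Int.natAbs_eq k with h | h <;> omega
      have e3 := (card_le_card e2).trans (card_le_two)
      exact_mod_cast e3
    have h4 := h₂ N hN1 X Y hX ((Real.rpow_le_rpow hN0.le hND (by linarith)).trans hDY)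
    have h5 : X * N / (N * Y) ^ c = (X / Y ^ c) * (N : ℝ) ^ (1 - c) := by
      rw [Real.mul_rpow hN0.le hY0.le, Real.rpow_sub hN0, Real.rpow_one]
      field_simp
    have h6 : (N : ℝ) ^ (1 - c) ≤ D ^ (1 - c) := Real.rpow_le_rpow hN0.le hND (by linarith)
    calc ∑ k ∈ G, cnt k X Y ≤ 2 * ∑ κ ∈ F, cnt (κ : ℤ) X Y := h3
      _ ≤ 2 * (C₂ * (X * N / (N * Y) ^ c)) := mul_le_mul_of_nonneg_left h4 (by norm_num)
      _ = 2 * C₂ * (X / Y ^ c) * (N : ℝ) ^ (1 - c) := by rw [h5]; ring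
      _ ≤ 2 * C₂ * (X / Y ^ c) * D ^ (1 - c) := mul_le_mul_of_nonneg_left h6 (by positivity)
      _ ≤ _ := by
          apply mul_le_mul_of_nonneg_right _ (by positivity)
          exact mul_le_mul_of_nonneg_right (le_max_right _ _) hq

end Pool.Agent.TH930.UD
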