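import Pool.Agent.TH930.UD.Base

set_option autoImplicit false

/-! All scales. -/

namespace Pool.Agent.TH930.UD

open Finset Pool.Agent.H319R3.GC Pool.Agent.H828R3.GP Pool.Agent.W36

variable {d : ℕ} {m r : ℕ → ℤ}

/-- all scales -/
theorem pb_allM (h₁ : Adm d m r) (M : ℕ) {η : ℝ} (hη0 : 0 ≤ η) (hη1 : η < 1)
    {c : ℝ} (hc0 : 0 < c) (hc : c < 1 - η) {E : ℝ} (hE : 0 ≤ E) : ∃ K : ℝ, 0 < K ∧ ∃ Y₀ : ℝ, 2 ≤ Y₀ ∧
    ∀ κ : ℤ, κ ≠ 0 → IsCoprime κ (PP d m : ℤ) → Adm d m (kr κ r) →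
    ∀ A y N : ℝ, 0 ≤ A → Y₀ ≤ y → 1 ≤ N → N ≤ y ^ E →
    (∀ i : ℕ, y ≤ (d : ℝ) ^ i → ((SjM κ d m r M i).card : ℝ) ≤ |(κ : ℝ)| * (A * ((d : ℝ) ^ η) ^ i)) →
    ∀ a : ℝ, 0 < a →
      PB (Sy d m (kr κ r) (|(κ : ℝ)| * y)) (|(κ : ℝ)| * a) 1
        (K * (A * (N * y) ^ (1 - η - c) * y ^ (-(1 - η)) + (N * y) ^ (-c))) := by
  classical
  have hd2 := h₁.two_le
  have hdR : (2 : ℝ) ≤ d := by exact_mod_cast hd2
  have hd0 : (0 : ℝ) < d := by linarith
  have hη' : 0 < 1 - η := by linarith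
  obtain ⟨R, hR0, hR⟩ : ∃ R : ℝ, 0 ≤ R ∧ ∀ i < d, |(r i : ℝ)| ≤ R := by
    refine ⟨∑ i ∈ range d, |(r i : ℝ)|, sum_nonneg fun _ _ => abs_nonneg _, fun i hi => ?_⟩
    exact Finset.single_le_sum (f := fun i => |(r i : ℝ)|) (fun j _ => abs_nonneg _)
      (mem_range.2 hi)
  have hPR2 : (2 : ℝ) ≤ PP d m := by exact_mod_cast h₁.big
  have hlP : 0 < Real.log (PP d m) := Real.log_pos (by linarith)
  have hP0 : 0 < PP d m := by have := h₁.big; omega
  set γ : ℝ := min ((1 - η - c) / (2 * d + 6)) (1 / (4 * (1 + E))) with hγ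
  have hγ0 : 0 < γ := lt_min (div_pos (by linarith) (by positivity)) (by positivity)
  have hγm : γ * (2 * d + 6) ≤ 1 - η - c := by
    have h1 : γ ≤ (1 - η - c) / (2 * d + 6) := min_le_left _ _
    rwa [le_div_iff₀ (by positivity)] at h1
  have hγE : γ * (4 * (1 + E)) ≤ 1 := by
    have h1 : γ ≤ 1 / (4 * (1 + E)) := min_le_right _ _
    rwa [le_div_iff₀ (by positivity)] at h1
  obtain ⟨B, hB⟩ := exists_nat_ge (c / γ)
  have hBγ : c ≤ γ * (B + 1 : ℕ) := by
    rw [div_le_iff₀ hγ0] at hB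
    push_cast
    nlinarith
  obtain ⟨lo, hi, ν, L₀, C, hνν, hlo, hlh, hhi, hν, hL₀, hC, hst⟩ :=
    stageU h₁ (B + 1) ((1 - η) / (2 * Real.log (PP d m))) (by positivity)
  have hlo1 : lo < 1 := by linarith
  have hhi0 : 0 < hi := hlo.trans_le hlh
  have hq1 : 1 < (1 / hi) ^ (B + 1) := by
    apply one_lt_pow₀ _ (by omega)
    rw [one_lt_div hhi0]; exact hhi
  set C₁ : ℝ := C / ((1 / hi) ^ (B + 1) - 1) with hC₁
  have hC₁0 : 0 < C₁ := div_pos hC (by linarith)
  have hCst : 0 ≤ CstM d R M := by unfold CstM; positivity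
  have e1 : ∀ᶠ y : ℝ in Filter.atTop, max L₀ 1 ≤ y ^ γ :=
    (tendsto_rpow_atTop hγ0).eventually_ge_atTop _
  have e2 : ∀ᶠ y : ℝ in Filter.atTop, ‖Real.log y‖ ≤ (lo / 2) * ‖y ^ γ‖ :=
    (isLittleO_log_rpow_atTop hγ0).bound (by positivity)
  have e3 : ∀ᶠ y : ℝ in Filter.atTop, 100 * M * R * d ≤ y ^ ((1 : ℝ) / 2) :=
    (tendsto_rpow_atTop (by norm_num)).eventually_ge_atTop _
  obtain ⟨Y₁, hY₁⟩ := Filter.eventually_atTop.1 ((e1.and e2).and e3)
  refine ⟨CstM d R M + C₁ * (1 / lo) ^ (B + 1) + 1, by positivity, max Y₁ 2, le_max_right _ _, ?_⟩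
  intro κ hκ0 hκc h A y N hA hyY hN1 hNE hSt a ha
  have hκp : 0 < |(κ : ℝ)| := abs_pos.2 (by exact_mod_cast hκ0)
  have hκn : Nat.Coprime κ.natAbs (PP d m) := by
    have := Int.isCoprime_iff_nat_coprime.1 hκc
    simpa using this
  obtain ⟨⟨h1, h2⟩, h3⟩ := hY₁ y (le_trans (le_max_left _ _) hyY)
  have hy2 : 2 ≤ y := le_trans (le_max_right _ _) hyY
  have hy0 : 0 < y := by linarith
  have hyNy : y ≤ N * y := by nlinarith
  have hNy0 : 0 < N * y := by linarith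
  have hNy1 : 1 ≤ N * y := by linarith
  set t₁ := (N * y) ^ γ with ht₁
  have htt : y ^ γ ≤ t₁ := Real.rpow_le_rpow hy0.le hyNy hγ0.le
  have ht1 : 1 ≤ t₁ := le_trans (le_trans (le_max_right _ _) h1) htt
  have htL : L₀ ≤ t₁ := le_trans (le_trans (le_max_left _ _) h1) htt
  have ht0 : 0 < t₁ := by linarith
  have hlogy : Real.log y ≤ lo / 2 * t₁ := by
    rw [Real.norm_eq_abs, Real.norm_eq_abs, abs_of_pos (Real.rpow_pos_of_pos hy0 γ)] at h2
    exact ((le_abs_self _).trans h2).trans (mul_le_mul_of_nonneg_left htt (by positivity))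
  have hlogy0 : 0 ≤ Real.log y := Real.log_nonneg (by linarith)
  have hyt : 100 * M * t₁ ^ 2 * R * d ≤ y := by
    have h4 : t₁ ^ 2 ≤ y ^ ((1 : ℝ) / 2) := by
      have h40 : N * y ≤ y ^ (1 + E) := by
        rw [Real.rpow_add hy0, Real.rpow_one, mul_comm]
        exact mul_le_mul_of_nonneg_left hNE hy0.le
      have h41 : t₁ ≤ y ^ ((1 + E) * γ) := by
        rw [ht₁, Real.rpow_mul hy0.le]
        exact Real.rpow_le_rpow hNy0.le h40 hγ0.le
      calc t₁ ^ 2 ≤ (y ^ ((1 + E) * γ)) ^ 2 := pow_le_pow_left₀ ht0.le h41 2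
        _ = y ^ ((1 + E) * γ * 2) := by
            rw [← Real.rpow_natCast, ← Real.rpow_mul hy0.le]; norm_num
        _ ≤ _ := by
            apply Real.rpow_le_rpow_of_exponent_le (by linarith)
            nlinarith
    have h5 : y ^ ((1 : ℝ) / 2) * y ^ ((1 : ℝ) / 2) = y := by
      rw [← Real.rpow_add hy0]; norm_num
    calc 100 * M * t₁ ^ 2 * R * d = (100 * M * R * d) * t₁ ^ 2 := by ring
      _ ≤ y ^ ((1 : ℝ) / 2) * y ^ ((1 : ℝ) / 2) := mul_le_mul h3 h4 (by positivity) (by positivity)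
      _ = y := h5
  have hyc : 0 < (N * y) ^ (-c) := Real.rpow_pos_of_pos hNy0 _
  have hyη : 0 < y ^ (-(1 - η)) := Real.rpow_pos_of_pos hy0 _
  have hNη : 0 < (N * y) ^ (1 - η - c) := Real.rpow_pos_of_pos hNy0 _
  have hρ : CstM d R M * A * t₁ ^ (2 * d + 5) * y ^ (-(1 - η)) ≤
      CstM d R M * (A * (N * y) ^ (1 - η - c) * y ^ (-(1 - η))) := by
    have e : CstM d R M * A * t₁ ^ (2 * d + 5) * y ^ (-(1 - η)) =
        CstM d R M * (A * t₁ ^ (2 * d + 5) * y ^ (-(1 - η))) := by ring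
    rw [e]
    apply mul_le_mul_of_nonneg_left _ hCst
    apply mul_le_mul_of_nonneg_right _ hyη.le
    apply mul_le_mul_of_nonneg_left _ hA
    rw [ht₁, ← Real.rpow_natCast, ← Real.rpow_mul hNy0.le]
    apply Real.rpow_le_rpow_of_exponent_le hNy1
    push_cast
    nlinarith
  have hρ0 : 0 ≤ CstM d R M * A * t₁ ^ (2 * d + 5) * y ^ (-(1 - η)) := by positivity
  have hA' : 0 ≤ A * (N * y) ^ (1 - η - c) * y ^ (-(1 - η)) := by positivity
  set S0 := Sy d m (kr κ r) (|(κ : ℝ)| * y) with hS0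
  have hS : ∀ x ∈ S0, |(κ : ℝ)| * y < |(x : ℝ)| := fun x hx => by simpa using hx 0
  have hST : ∀ x ∈ S0, Tm d m (kr κ r) x ∈ S0 := by
    intro x hx k
    have := hx (k + 1)
    rwa [Function.iterate_succ_apply] at this
  have hD0 : 0 ≤ C₁ * (1 / lo) ^ (B + 1) := by positivity
  have hκa : 0 < |(κ : ℝ)| * a := mul_pos hκp ha
  rcases le_or_gt (2 * a) y with hsm | hbig
  · refine I1_empty hS hκa ?_ 1 (by positivity)
    have := mul_le_mul_of_nonneg_left hsm hκp.le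
    linarith
  rcases le_or_gt (Real.log a) t₁ with hcase | hcase
  · have h5 := pb_baseM hκ0 hκn h hR hR0 hA hη0 hη1 (y := y) (t₁ := t₁) (a := a) hSt (by linarith) ht1
      ha hbig.le hcase hyt (Q := 1) one_pos (by simp) (by
        rw [Nat.cast_one]
        apply Real.one_le_rpow _ hη'.le
        rw [le_div_iff₀ hy0]; linarith)
    refine I1_PB_mono hκa h5 (hρ.trans ?_)
    set Z := A * (N * y) ^ (1 - η - c) * y ^ (-(1 - η)) with hZ
    have e9 : (CstM d R M + C₁ * (1 / lo) ^ (B + 1) + 1) * (Z + (N * y) ^ (-c)) = CstM d R M * Z +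
        C₁ * (1 / lo) ^ (B + 1) * (N * y) ^ (-c) + (CstM d R M * (N * y) ^ (-c) +
          C₁ * (1 / lo) ^ (B + 1) * Z + Z + (N * y) ^ (-c)) := by ring
    rw [e9]
    linarith [mul_nonneg hCst hyc.le, mul_nonneg hD0 hA', mul_nonneg hD0 hyc.le]
  · have h5 := restartU (S := S0) (B := B + 1) (P := PP d m) (lo := lo) (hi := hi) (ν := ν)
      (L₀ := L₀) (C := C) hκp (by omega) hlo hlh hhi hC (hst κ hκ0 hκc h S0 hST) (t₁ := t₁)
      (ρ₀ := CstM d R M * A * t₁ ^ (2 * d + 5) * y ^ (-(1 - η))) htL ht0 hρ0 (by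
        intro a' ha' hl1 hl2
        have hly : Real.log y ≤ Real.log a' / 2 := by linarith
        have hla0 : 0 ≤ Real.log a' := by linarith
        apply pb_baseM hκ0 hκn h hR hR0 hA hη0 hη1 hSt (by linarith) ht1 ha' _ hl2 hyt (pow_pos hP0 _)
          (hκn.pow_right _)
        · rw [← Real.log_le_log_iff (by positivity) (by positivity)]
          rw [Nat.cast_pow, Real.log_pow, Real.log_rpow (by positivity), Real.log_div (by positivity)
            hy0.ne', Real.log_mul (by norm_num) ha'.ne']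
          have hfl : (⌊ν * Real.log a'⌋₊ : ℝ) ≤ ν * Real.log a' := Nat.floor_le (by positivity)
          have hl2p : 0 < Real.log 2 := Real.log_pos (by norm_num)
          calc (⌊ν * Real.log a'⌋₊ : ℝ) * Real.log (PP d m) ≤ ν * Real.log a' * Real.log (PP d m) :=
                mul_le_mul_of_nonneg_right hfl hlP.le
            _ ≤ (1 - η) / (2 * Real.log (PP d m)) * Real.log a' * Real.log (PP d m) := by
                apply mul_le_mul_of_nonneg_right _ hlP.le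
                exact mul_le_mul_of_nonneg_right hνν hla0
            _ = (1 - η) * (Real.log a' / 2) := by field_simp
            _ ≤ (1 - η) * (Real.log 2 + Real.log a' - Real.log y) := by
                apply mul_le_mul_of_nonneg_left _ hη'.le
                linarith
        · have : Real.log y ≤ Real.log a' := by linarith
          have := (Real.log_le_log_iff hy0 ha').1 this
          linarith) a ha (by nlinarith)
    have h6 := PB.coarse hκa (pow_pos hP0 _) (one_dvd _) h5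
    refine I1_PB_mono hκa h6 ?_
    have h7 : C₁ * (1 / (lo * t₁)) ^ (B + 1) ≤ C₁ * (1 / lo) ^ (B + 1) * (N * y) ^ (-c) := by
      have e4 : (1 / (lo * t₁)) ^ (B + 1) = (1 / lo) ^ (B + 1) * (1 / t₁) ^ (B + 1) := by
        rw [← mul_pow]; congr 1; field_simp
      rw [e4, ← mul_assoc]
      apply mul_le_mul_of_nonneg_left _ (by positivity)
      rw [one_div, inv_pow, ht₁, ← Real.rpow_natCast, ← Real.rpow_mul hNy0.le, ← Real.rpow_neg hNy0.le]
      apply Real.rpow_le_rpow_of_exponent_le hNy1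
      linarith
    set Z := A * (N * y) ^ (1 - η - c) * y ^ (-(1 - η)) with hZ
    have e9 : (CstM d R M + C₁ * (1 / lo) ^ (B + 1) + 1) * (Z + (N * y) ^ (-c)) = CstM d R M * Z +
        C₁ * (1 / lo) ^ (B + 1) * (N * y) ^ (-c) + (CstM d R M * (N * y) ^ (-c) +
          C₁ * (1 / lo) ^ (B + 1) * Z + Z + (N * y) ^ (-c)) := by ring
    rw [e9]
    linarith [mul_nonneg hCst hyc.le, mul_nonneg hD0 hA', mul_nonneg hD0 hyc.le]

end Pool.Agent.TH930.UD
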