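import Pool.Agent.TH930.UD.Words

set_option autoImplicit false

/-! Stuck points for many `k` at once: the pairs `(z, k)` without common divisor have distinct words. -/

namespace Pool.Agent.TH930.UD

open Finset
open Pool.Agent.H828R3.GP (m3 r3 adm3 Tm3)
open Pool.Agent.TH930.EBQ (words mem_words ones wd T)

/-- multiplication by an odd number conjugates the maps -/
theorem T_mul2 {g k : ℤ} (hg : Odd g) (hk : Odd k) (z : ℤ) : T (g * k) (g * z) = g * T k z := by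
  have h1 := EBQ.two_T (hg.mul hk) (g * z)
  have h2 := EBQ.two_T hk z
  obtain ⟨t, ht⟩ := hg
  have hpar : (g * z) % 2 = z % 2 := by
    rw [ht, Int.mul_emod, Int.add_emod, Int.mul_emod_right]
    norm_num
  rw [hpar] at h1
  rcases Int.emod_two_eq_zero_or_one z with h | h
  · rw [if_neg (by omega)] at h1 h2
    have : 2 * T (g * k) (g * z) = 2 * (g * T k z) := by rw [h1]; linear_combination (-g) * h2
    omega
  · rw [if_pos h] at h1 h2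
    have : 2 * T (g * k) (g * z) = 2 * (g * T k z) := by rw [h1]; linear_combination (-g) * h2
    omega

theorem wd_mul2 {g k : ℤ} (hg : Odd g) (hk : Odd k) (n : ℕ) (z : ℤ) : wd (g * k) n (g * z) = wd k n z := by
  induction n generalizing z with
  | zero => rfl
  | succ n ih =>
    simp only [wd]
    rw [T_mul2 hg hk, ih]
    congr 1
    obtain ⟨t, ht⟩ := hg
    have hpar : (g * z) % 2 = z % 2 := by
      rw [ht, Int.mul_emod, Int.add_emod, Int.mul_emod_right]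
      norm_num
    rw [hpar]

/-- two pairs with the same word and the same greatest common divisor -/
theorem pair_inj {κ₁ κ₂ K g : ℕ} {z₁ z₂ : ℤ} (h1 : Odd κ₁) (h2 : Odd κ₂)
    (g1 : Nat.gcd κ₁ z₁.natAbs = g) (g2 : Nat.gcd κ₂ z₂.natAbs = g)
    (hw : wd (κ₁ : ℤ) K z₁ = wd (κ₂ : ℤ) K z₂)
    (hb : |(κ₂ : ℤ) * z₁ - κ₁ * z₂| < 2 ^ K * (g : ℤ) ^ 2) : κ₁ = κ₂ ∧ z₁ = z₂ := by
  have hκ1 : 0 < κ₁ := h1.pos
  have hκ2 : 0 < κ₂ := h2.pos
  have hg0 : 0 < g := by rw [← g1]; exact Nat.gcd_pos_of_pos_left _ hκ1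
  have hgZ : (0 : ℤ) < g := by exact_mod_cast hg0
  obtain ⟨a₁, ha₁⟩ : g ∣ κ₁ := by rw [← g1]; exact Nat.gcd_dvd_left _ _
  obtain ⟨a₂, ha₂⟩ : g ∣ κ₂ := by rw [← g2]; exact Nat.gcd_dvd_left _ _
  obtain ⟨b₁, hb₁⟩ : (g : ℤ) ∣ z₁ := by
    rw [Int.natCast_dvd, ← g1]; exact Nat.gcd_dvd_right _ _
  obtain ⟨b₂, hb₂⟩ : (g : ℤ) ∣ z₂ := by
    rw [Int.natCast_dvd, ← g2]; exact Nat.gcd_dvd_right _ _
  have hgo : Odd g := by rw [ha₁] at h1; exact (Nat.odd_mul.1 h1).1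
  have ho1 : Odd a₁ := by rw [ha₁] at h1; exact (Nat.odd_mul.1 h1).2
  have ho2 : Odd a₂ := by rw [ha₂] at h2; exact (Nat.odd_mul.1 h2).2
  have hgoZ : Odd (g : ℤ) := by exact_mod_cast hgo
  have ho1Z : Odd (a₁ : ℤ) := by exact_mod_cast ho1
  have ho2Z : Odd (a₂ : ℤ) := by exact_mod_cast ho2
  have e1 : (κ₁ : ℤ) = g * a₁ := by exact_mod_cast ha₁
  have e2 : (κ₂ : ℤ) = g * a₂ := by exact_mod_cast ha₂
  have w1 : wd (κ₁ : ℤ) K z₁ = wd (a₁ : ℤ) K b₁ := by rw [e1, hb₁]; exact wd_mul2 hgoZ ho1Z K b₁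
  have w2 : wd (κ₂ : ℤ) K z₂ = wd (a₂ : ℤ) K b₂ := by rw [e2, hb₂]; exact wd_mul2 hgoZ ho2Z K b₂
  have w3 : wd ((a₂ : ℤ) * a₁) K (a₂ * b₁) = wd ((a₁ : ℤ) * a₂) K (a₁ * b₂) := by
    rw [wd_mul2 ho2Z ho1Z, wd_mul2 ho1Z ho2Z, ← w1, ← w2, hw]
  rw [mul_comm (a₁ : ℤ) a₂] at w3
  have h3 := EBQ.wd_inj (ho2Z.mul ho1Z) w3
  have h4 : |(a₂ : ℤ) * b₁ - a₁ * b₂| < 2 ^ K := by
    have e3 : (κ₂ : ℤ) * z₁ - κ₁ * z₂ = ((a₂ : ℤ) * b₁ - a₁ * b₂) * (g : ℤ) ^ 2 := by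
      rw [e1, e2, hb₁, hb₂]; ring
    rw [e3, abs_mul, abs_of_pos (by positivity : (0 : ℤ) < (g : ℤ) ^ 2)] at hb
    exact lt_of_mul_lt_mul_right hb (by positivity)
  have h5 := Int.eq_zero_of_abs_lt_dvd h3 h4
  have h6 : (κ₂ : ℤ) * z₁ = κ₁ * z₂ := by
    rw [e1, e2, hb₁, hb₂]
    linear_combination (g : ℤ) ^ 2 * h5
  have h7 : κ₂ * z₁.natAbs = κ₁ * z₂.natAbs := by
    have := congrArg Int.natAbs h6
    rwa [Int.natAbs_mul, Int.natAbs_mul, Int.natAbs_natCast, Int.natAbs_natCast] at this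
  have h8 : κ₂ * g = κ₁ * g := by
    calc κ₂ * g = Nat.gcd (κ₂ * κ₁) (κ₂ * z₁.natAbs) := by rw [Nat.gcd_mul_left, g1]
      _ = Nat.gcd (κ₁ * κ₂) (κ₁ * z₂.natAbs) := by rw [h7, mul_comm κ₂ κ₁]
      _ = κ₁ * g := by rw [Nat.gcd_mul_left, g2]
  have h9 : κ₁ = κ₂ := (Nat.eq_of_mul_eq_mul_right hg0 h8).symm
  refine ⟨h9, ?_⟩
  rw [← h9] at h6
  have : (κ₁ : ℤ) ≠ 0 := by exact_mod_cast hκ1.ne'
  exact mul_left_cancel₀ this h6

/-- THE STUCK POINTS OF ALL `κ < 2 ^ t` TOGETHER -/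
theorem pair_count {s η : ℝ} (hs : 0 ≤ s) (hη : 1 / 2 < η)
    (hsum : (1 / 2 : ℝ) ^ s + (3 / 2 : ℝ) ^ s ≤ 2 ^ η) : ∃ C : ℝ, 0 < C ∧ ∀ M t i : ℕ, 1 ≤ i →
    2 * t + i + 1 ≤ M * i → 4 * ((M : ℝ) * i) ≤ (2 : ℝ) ^ (i - 1) →
    ∀ G : Finset ℕ, (∀ κ ∈ G, Odd κ ∧ κ < 2 ^ t) →
    ∑ κ ∈ G, ((SjM (κ : ℤ) 2 m3 (r3 1) M i).card : ℝ) ≤ C * ((2 : ℝ) ^ (2 * t + i)) ^ η := by
  classical
  have hη0 : 0 < η := by linarith
  have hsumm : Summable (fun g : ℕ => (g : ℝ) ^ (-(2 * η))) := by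
    rw [Real.summable_nat_rpow]; linarith
  set S : ℝ := ∑' g : ℕ, (g : ℝ) ^ (-(2 * η)) with hS
  have hS0 : 0 ≤ S := tsum_nonneg fun g => by positivity
  refine ⟨4 ^ s * 8 ^ η * S + 1, by positivity, ?_⟩
  intro M t i hi hM hM2 G hG
  set Kg : ℕ → ℕ := fun g => 2 * t + i + 1 - 2 * Nat.log 2 g with hKg
  set P : Finset (Σ _ : ℕ, ℤ) := G.sigma (fun κ => SjM (κ : ℤ) 2 m3 (r3 1) M i) with hP
  set Q : Finset (Σ _ : ℕ, List Bool) := (Ico 1 (2 ^ t)).sigma (fun g => BW (Kg g)) with hQ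
  have hPQ : P.card ≤ Q.card := by
    apply card_le_card_of_injOn (fun p => ⟨Nat.gcd p.1 p.2.natAbs, wd (p.1 : ℤ) (Kg (Nat.gcd p.1 p.2.natAbs)) p.2⟩)
    · rintro ⟨κ, z⟩ hp
      rw [mem_coe, hP, mem_sigma] at hp
      obtain ⟨hκ, hz⟩ := hp
      simp only at hκ hz
      obtain ⟨ho, hlt⟩ := hG κ hκ
      have hoZ : Odd (κ : ℤ) := by exact_mod_cast ho
      rw [mem_coe, hQ, mem_sigma, mem_Ico]
      simp only
      refine ⟨⟨Nat.gcd_pos_of_pos_left _ ho.pos, (Nat.gcd_le_left _ ho.pos).trans_lt hlt⟩, ?_⟩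
      have hKle : Kg (Nat.gcd κ z.natAbs) ≤ M * i := by
        simp only [hKg]; omega
      apply wd_mem_BW hoZ hi hKle _ hz
      have : (Kg (Nat.gcd κ z.natAbs) : ℝ) ≤ (M : ℝ) * i := by exact_mod_cast hKle
      linarith
    · rintro ⟨κ₁, z₁⟩ hp1 ⟨κ₂, z₂⟩ hp2 heq
      rw [mem_coe, hP, mem_sigma] at hp1 hp2
      obtain ⟨hκ1, hz1⟩ := hp1
      obtain ⟨hκ2, hz2⟩ := hp2
      simp only at hκ1 hz1 hκ2 hz2 heq
      obtain ⟨ho1, hlt1⟩ := hG κ₁ hκ1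
      obtain ⟨ho2, hlt2⟩ := hG κ₂ hκ2
      rw [Sigma.mk.injEq] at heq
      obtain ⟨hg, hw⟩ := heq
      have hw' := eq_of_heq hw
      set g := Nat.gcd κ₁ z₁.natAbs with hgd
      rw [← hg] at hw'
      have hg0 : 0 < g := Nat.gcd_pos_of_pos_left _ ho1.pos
      have hgt : g < 2 ^ t := (Nat.gcd_le_left _ ho1.pos).trans_lt hlt1
      have hlog1 : 2 ^ Nat.log 2 g ≤ g := Nat.pow_log_le_self 2 hg0.ne'
      have hlogt : Nat.log 2 g < t := by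
        by_contra hcon
        push Not at hcon
        have : 2 ^ t ≤ 2 ^ Nat.log 2 g := Nat.pow_le_pow_right (by norm_num) hcon
        omega
      have hb : ∀ κ : ℕ, ∀ z : ℤ, κ < 2 ^ t → z ∈ SjM (κ : ℤ) 2 m3 (r3 1) M i → |z| < 2 ^ (t + i) := by
        intro κ z hκ hz
        unfold SjM at hz
        rw [mem_filter] at hz
        have h1 := hz.2.1
        push_cast at h1
        have h2 : |(z : ℝ)| < (κ : ℝ) * 2 ^ i := by
          rwa [Nat.abs_cast] at h1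
        have h3 : |z| < (κ : ℤ) * 2 ^ i := by exact_mod_cast h2
        have h4 : (κ : ℤ) * 2 ^ i ≤ 2 ^ t * 2 ^ i := by
          apply mul_le_mul_of_nonneg_right _ (by positivity)
          exact_mod_cast hκ.le
        rw [pow_add]; linarith
      have b1 := hb κ₁ z₁ hlt1 hz1
      have b2 := hb κ₂ z₂ hlt2 hz2
      have key : |(κ₂ : ℤ) * z₁ - κ₁ * z₂| < 2 ^ (Kg g) * (g : ℤ) ^ 2 := by
        have c1 : |(κ₂ : ℤ) * z₁| < 2 ^ (2 * t + i) := by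
          rw [abs_mul, Nat.abs_cast]
          have hk2 : (κ₂ : ℤ) < 2 ^ t := by exact_mod_cast hlt2
          calc (κ₂ : ℤ) * |z₁| < 2 ^ t * 2 ^ (t + i) := by
                apply mul_lt_mul'' hk2 b1 (by positivity) (abs_nonneg _)
            _ = 2 ^ (2 * t + i) := by rw [← pow_add]; congr 1; ring
        have c2 : |(κ₁ : ℤ) * z₂| < 2 ^ (2 * t + i) := by
          rw [abs_mul, Nat.abs_cast]
          have hk1 : (κ₁ : ℤ) < 2 ^ t := by exact_mod_cast hlt1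
          calc (κ₁ : ℤ) * |z₂| < 2 ^ t * 2 ^ (t + i) := by
                apply mul_lt_mul'' hk1 b2 (by positivity) (abs_nonneg _)
            _ = 2 ^ (2 * t + i) := by rw [← pow_add]; congr 1; ring
        have c3 : |(κ₂ : ℤ) * z₁ - κ₁ * z₂| < 2 ^ (2 * t + i + 1) := by
          have := abs_sub ((κ₂ : ℤ) * z₁) (κ₁ * z₂)
          rw [pow_succ]; linarith
        refine c3.trans_le ?_
        have c4 : (2 : ℤ) ^ (2 * t + i + 1) = 2 ^ (Kg g) * (2 ^ Nat.log 2 g) ^ 2 := by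
          rw [← pow_mul, ← pow_add]
          congr 1
          simp only [hKg]
          omega
        rw [c4]
        apply mul_le_mul_of_nonneg_left _ (by positivity)
        apply pow_le_pow_left₀ (by positivity)
        exact_mod_cast hlog1
      obtain ⟨r1, r2⟩ := pair_inj ho1 ho2 hgd.symm hg.symm hw' key
      subst r1
      subst r2
      rfl
  have h1 : ∑ κ ∈ G, ((SjM (κ : ℤ) 2 m3 (r3 1) M i).card : ℝ) = (P.card : ℝ) := by
    rw [hP, card_sigma]; push_cast; rfl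
  have h2 : (Q.card : ℝ) = ∑ g ∈ Ico 1 (2 ^ t), ((BW (Kg g)).card : ℝ) := by
    rw [hQ, card_sigma]; push_cast; rfl
  have h3 : ∀ g ∈ Ico 1 (2 ^ t), ((BW (Kg g)).card : ℝ) ≤
      4 ^ s * 8 ^ η * ((2 : ℝ) ^ (2 * t + i)) ^ η * (g : ℝ) ^ (-(2 * η)) := by
    intro g hg
    rw [mem_Ico] at hg
    have hg0 : 0 < g := hg.1
    have hgR : (0 : ℝ) < g := by exact_mod_cast hg0
    have hlog1 : 2 ^ Nat.log 2 g ≤ g := Nat.pow_log_le_self 2 hg0.ne'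
    have hlog2 : g < 2 ^ (Nat.log 2 g + 1) := Nat.lt_pow_succ_log_self (by norm_num) g
    have hlogt : Nat.log 2 g < t := by
      by_contra hcon
      push Not at hcon
      have : 2 ^ t ≤ 2 ^ Nat.log 2 g := Nat.pow_le_pow_right (by norm_num) hcon
      omega
    have c4 : (2 : ℝ) ^ (Kg g) * (2 ^ Nat.log 2 g) ^ 2 = 2 ^ (2 * t + i + 1) := by
      rw [← pow_mul, ← pow_add]
      congr 1
      simp only [hKg]
      omega
    have c5 : (g : ℝ) ≤ 2 * 2 ^ Nat.log 2 g := by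
      have : (g : ℝ) ≤ (2 : ℝ) ^ (Nat.log 2 g + 1) := by exact_mod_cast hlog2.le
      rwa [pow_succ, mul_comm] at this
    have c6 : (2 : ℝ) ^ (Kg g) * (g : ℝ) ^ 2 ≤ 8 * 2 ^ (2 * t + i) := by
      calc (2 : ℝ) ^ (Kg g) * (g : ℝ) ^ 2 ≤ 2 ^ (Kg g) * (2 * 2 ^ Nat.log 2 g) ^ 2 := by
            apply mul_le_mul_of_nonneg_left _ (by positivity)
            exact pow_le_pow_left₀ hgR.le c5 2
        _ = 4 * (2 ^ (Kg g) * (2 ^ Nat.log 2 g) ^ 2) := by ring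
        _ = 8 * 2 ^ (2 * t + i) := by rw [c4, pow_succ]; ring
    refine (card_BW hs hsum (Kg g)).trans ?_
    have c7 : ((2 : ℝ) ^ η) ^ (Kg g) = ((2 : ℝ) ^ (Kg g)) ^ η := by
      rw [← Real.rpow_natCast, ← Real.rpow_natCast, ← Real.rpow_mul (by norm_num),
        ← Real.rpow_mul (by norm_num), mul_comm]
    have c8 : ((2 : ℝ) ^ (Kg g)) ^ η * (g : ℝ) ^ (2 * η) ≤ 8 ^ η * ((2 : ℝ) ^ (2 * t + i)) ^ η := by
      rw [Real.rpow_mul hgR.le, ← Real.mul_rpow (by positivity) (by positivity),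
        ← Real.mul_rpow (by norm_num) (by positivity)]
      apply Real.rpow_le_rpow (by positivity) _ hη0.le
      have : (g : ℝ) ^ (2 : ℝ) = (g : ℝ) ^ 2 := by norm_num
      rw [this]; exact c6
    rw [c7]
    have c9 : (g : ℝ) ^ (2 * η) * (g : ℝ) ^ (-(2 * η)) = 1 := by
      rw [← Real.rpow_add hgR, add_neg_cancel, Real.rpow_zero]
    calc (4 : ℝ) ^ s * ((2 : ℝ) ^ (Kg g)) ^ η
        = 4 ^ s * (((2 : ℝ) ^ (Kg g)) ^ η * (g : ℝ) ^ (2 * η)) * (g : ℝ) ^ (-(2 * η)) := by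
          rw [mul_assoc, mul_assoc (((2 : ℝ) ^ (Kg g)) ^ η), c9, mul_one]
      _ ≤ 4 ^ s * (8 ^ η * ((2 : ℝ) ^ (2 * t + i)) ^ η) * (g : ℝ) ^ (-(2 * η)) := by
          apply mul_le_mul_of_nonneg_right _ (by positivity)
          exact mul_le_mul_of_nonneg_left c8 (by positivity)
      _ = _ := by ring
  have h4 : ∑ g ∈ Ico (1 : ℕ) (2 ^ t), (g : ℝ) ^ (-(2 * η)) ≤ S :=
    hsumm.sum_le_tsum _ (fun g _ => by positivity)
  have h5 : (P.card : ℝ) ≤ (Q.card : ℝ) := by exact_mod_cast hPQ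
  rw [h1]
  refine h5.trans ?_
  rw [h2]
  refine (sum_le_sum h3).trans ?_
  rw [← mul_sum]
  have h6 : (0 : ℝ) ≤ ((2 : ℝ) ^ (2 * t + i)) ^ η := by positivity
  calc 4 ^ s * 8 ^ η * ((2 : ℝ) ^ (2 * t + i)) ^ η * ∑ g ∈ Ico (1 : ℕ) (2 ^ t), (g : ℝ) ^ (-(2 * η))
      ≤ 4 ^ s * 8 ^ η * ((2 : ℝ) ^ (2 * t + i)) ^ η * S :=
        mul_le_mul_of_nonneg_left h4 (by positivity)
    _ = 4 ^ s * 8 ^ η * S * ((2 : ℝ) ^ (2 * t + i)) ^ η := by ring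
    _ ≤ _ := mul_le_mul_of_nonneg_right (by linarith) h6

end Pool.Agent.TH930.UD
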