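import Pool.Agent.TH930.UD.One
import Pool.Agent.TH930.UD.Pairs

set_option autoImplicit false

/-! Power saving on average over `k`. -/

namespace Pool.Agent.TH930.UD

open Finset Filter Topology
open Pool.Agent.H828R3.GP
open Pool.Agent.H499R2.ND (Td)
open Pool.Agent.H319R3.GC (Adm Tm PP PB I1_sum I1_window_finite ncard_trivial)
open Pool.Agent.W36 (kr)
open Pool.Agent.TH235.UB (kr_r3 PP_m3)
open Pool.Agent.H319R2 (beta)
open Pool.Agent.TH930.PS (beta_pos)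

/-- the number of steps per level is enough for the size of `κ`, for pairs -/
theorem steps_ok2 {ε : ℝ} (hε : 0 < ε) : ∃ M : ℕ, ∃ Y₁ : ℝ, 4 ≤ Y₁ ∧ ∀ κ : ℕ, 1 ≤ κ → ∀ y : ℝ, Y₁ ≤ y →
    (κ : ℝ) ^ ε ≤ y → ∀ i : ℕ, y ≤ (2 : ℝ) ^ i →
    1 ≤ i ∧ 2 * Nat.size κ + i + 1 ≤ M * i ∧ 4 * ((M : ℝ) * i) ≤ (2 : ℝ) ^ (i - 1) := by
  obtain ⟨e, he⟩ := exists_nat_ge (1 / ε)
  set M : ℕ := 5 + 2 * e with hM
  have e2 : ∀ᶠ i : ℕ in atTop, 8 * (M : ℝ) * (i : ℝ) ≤ (2 : ℝ) ^ i := by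
    have h1 := tendsto_pow_const_div_const_pow_of_one_lt 1 (show (1 : ℝ) < 2 by norm_num)
    have h2 := h1.eventually_le_const (show (0 : ℝ) < 1 / (8 * M) by positivity)
    filter_upwards [h2] with i hi
    rw [div_le_div_iff₀ (by positivity) (by positivity), pow_one] at hi
    linarith
  obtain ⟨i0, hi0⟩ := eventually_atTop.1 e2
  refine ⟨M, 2 ^ (i0 + 2), ?_, ?_⟩
  · calc (4 : ℝ) = 2 ^ 2 := by norm_num
      _ ≤ 2 ^ (i0 + 2) := pow_le_pow_right₀ (by norm_num) (by omega)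
  intro κ hκ y hy hky i hi
  have h2i : (2 : ℝ) ^ (i0 + 2) ≤ 2 ^ i := hy.trans hi
  have hi1 : i0 + 2 ≤ i := (pow_le_pow_iff_right₀ (by norm_num)).1 h2i
  have hκ1 : (1 : ℝ) ≤ κ := by exact_mod_cast hκ
  have hκ0 : (0 : ℝ) < κ := by linarith
  have hy0 : 0 < y := lt_of_lt_of_le (by positivity) hy
  have hk1 : (κ : ℝ) ≤ (2 : ℝ) ^ (e * i) := by
    calc (κ : ℝ) = ((κ : ℝ) ^ ε) ^ (1 / ε) := by
          rw [← Real.rpow_mul hκ0.le, mul_one_div_cancel hε.ne', Real.rpow_one]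
      _ ≤ ((2 : ℝ) ^ i) ^ (1 / ε) := Real.rpow_le_rpow (by positivity) (hky.trans hi) (by positivity)
      _ ≤ ((2 : ℝ) ^ i) ^ (e : ℝ) :=
          Real.rpow_le_rpow_of_exponent_le (one_le_pow₀ (by norm_num)) he
      _ = 2 ^ (e * i) := by rw [Real.rpow_natCast, ← pow_mul, mul_comm]
  have hk2 : κ ≤ 2 ^ (e * i) := by exact_mod_cast hk1
  have hsz : Nat.size κ ≤ e * i + 1 := by
    apply Nat.size_le.2
    calc κ ≤ 2 ^ (e * i) := hk2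
      _ < 2 ^ (e * i + 1) := Nat.pow_lt_pow_right (by norm_num) (by omega)
  refine ⟨by omega, ?_, ?_⟩
  · rw [hM]
    have : (5 + 2 * e) * i = 5 * i + 2 * (e * i) := by ring
    rw [this]
    omega
  · have h1 := hi0 i (by omega)
    have e : (2 : ℝ) ^ i = 2 * (2 : ℝ) ^ (i - 1) := by rw [← pow_succ']; congr 1; omega
    rw [e] at h1
    linarith

/-- from the windows to the count -/
theorem count_of_pb {k : ℤ} (hk : Odd k) {X Y ρ : ℝ} (hX : 1 ≤ X) (hY : 0 < Y) (hρ : 0 ≤ ρ)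
    (hbase : ∀ a : ℝ, 0 < a → PB (Sy 2 m3 (kr k (r3 1)) Y) (|(k : ℝ)| * a) 1 ρ) :
    ({x : ℤ | |(x : ℝ)| ≤ X ∧ ∀ n : ℕ, Y < |(((Td k)^[n] x : ℤ) : ℝ)|}.ncard : ℝ) ≤ 4 * X * ρ := by
  have hk0 : k ≠ 0 := by rintro rfl; simp at hk
  have hkp : 0 < |(k : ℝ)| := abs_pos.2 (by exact_mod_cast hk0)
  have hS : ∀ x ∈ Sy 2 m3 (kr k (r3 1)) Y, Y < |(x : ℝ)| := fun x hx => by simpa using hx 0
  obtain ⟨n, hn⟩ := pow_unbounded_of_one_lt (2 * X / Y) (show (1 : ℝ) < 2 by norm_num)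
  have h1 := I1_sum hS hρ (fun a _ ha => by
    have := hbase (a / |(k : ℝ)|) (by positivity)
    rw [mul_div_cancel₀ _ hkp.ne'] at this
    exact this) n (2 * X) (by linarith) (by
    rw [div_lt_iff₀ hY] at hn
    linarith)
  have hfin1 : {x : ℤ | |(x : ℝ)| ≤ X ∧ ∀ n : ℕ, Y < |(((Td k)^[n] x : ℤ) : ℝ)|} ⊆
      {x : ℤ | x ∈ Sy 2 m3 (kr k (r3 1)) Y ∧ |(x : ℝ)| < 2 * X} := by
    rintro x ⟨h1, h2⟩
    refine ⟨?_, by linarith⟩
    intro n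
    rw [kr_r3, Tm3]
    exact h2 n
  have h2 := Set.ncard_le_ncard hfin1 (I1_window_finite _ _)
  have h3 : ({x : ℤ | |(x : ℝ)| ≤ X ∧ ∀ n : ℕ, Y < |(((Td k)^[n] x : ℤ) : ℝ)|}.ncard : ℝ) ≤
      ({x : ℤ | x ∈ Sy 2 m3 (kr k (r3 1)) Y ∧ |(x : ℝ)| < 2 * X}.ncard : ℝ) := by exact_mod_cast h2
  refine (h3.trans h1).trans (le_of_eq (by ring))

/-- the levels for which the word length is available -/
def good (M t i : ℕ) : Prop := 1 ≤ i ∧ 2 * t + i + 1 ≤ M * i ∧ 4 * ((M : ℝ) * i) ≤ (2 : ℝ) ^ (i - 1)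

open Classical in
/-- the density parameter of `κ` -/
noncomputable def AA (M n t : ℕ) (η A₀ : ℝ) (κ : ℕ) : ℝ :=
  ∑ i ∈ (range n).filter (good M t), ((SjM (κ : ℤ) 2 m3 (r3 1) M i).card : ℝ) / (κ * ((2 : ℝ) ^ η) ^ i) +
    A₀ / 4 ^ t

theorem AA_nonneg (M n t : ℕ) (η : ℝ) {A₀ : ℝ} (hA₀ : 0 ≤ A₀) (κ : ℕ) : 0 ≤ AA M n t η A₀ κ := by
  unfold AA
  positivity

/-- the sum of the parameters -/
theorem sum_AA {s η' η A₀ : ℝ} (hs : 0 ≤ s) (hη' : 1 / 2 < η') (hηη : η' < η) (hA₀ : 0 ≤ A₀)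
    (hsum : (1 / 2 : ℝ) ^ s + (3 / 2 : ℝ) ^ s ≤ 2 ^ η') : ∃ C : ℝ, 0 < C ∧ ∀ M n t : ℕ, 1 ≤ t →
    ∀ G : Finset ℕ, (∀ κ ∈ G, Odd κ ∧ κ < 2 ^ t ∧ 2 ^ (t - 1) ≤ κ) →
    ∑ κ ∈ G, AA M n t η A₀ κ ≤ C * ((2 : ℝ) ^ t) ^ (2 * η - 1) := by
  classical
  obtain ⟨C₁, hC₁, hpair⟩ := pair_count hs hη' hsum
  set q : ℝ := 2 ^ (η' - η) with hq
  have hq0 : 0 < q := by positivity
  have hq1 : q < 1 := Real.rpow_lt_one_of_one_lt_of_neg (by norm_num) (by linarith)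
  refine ⟨2 * C₁ * (1 - q)⁻¹ + A₀ + 1, by
    have : 0 < (1 - q)⁻¹ := inv_pos.2 (by linarith)
    positivity, ?_⟩
  intro M n t ht G hG
  set U : ℝ := (2 : ℝ) ^ t with hU
  have hU1 : 1 ≤ U := one_le_pow₀ (by norm_num)
  have hU0 : 0 < U := by linarith
  have hGc : (G.card : ℝ) ≤ U := by
    have h1 : G ⊆ range (2 ^ t) := fun κ hκ => mem_range.2 (hG κ hκ).2.1
    have h2 := card_le_card h1
    rw [card_range] at h2
    rw [hU]
    exact_mod_cast h2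
  unfold AA
  rw [sum_add_distrib, sum_comm]
  have h1 : ∀ i ∈ (range n).filter (good M t),
      ∑ κ ∈ G, ((SjM (κ : ℤ) 2 m3 (r3 1) M i).card : ℝ) / (κ * ((2 : ℝ) ^ η) ^ i) ≤
      2 * C₁ * U ^ (2 * η' - 1) * q ^ i := by
    intro i hi
    rw [mem_filter] at hi
    obtain ⟨-, g1, g2, g3⟩ := hi
    have h2i : (0 : ℝ) < (2 : ℝ) ^ i := by positivity
    have h2 : ∀ κ ∈ G, ((SjM (κ : ℤ) 2 m3 (r3 1) M i).card : ℝ) / (κ * ((2 : ℝ) ^ η) ^ i) ≤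
        ((SjM (κ : ℤ) 2 m3 (r3 1) M i).card : ℝ) * (2 / U * (((2 : ℝ) ^ η) ^ i)⁻¹) := by
      intro κ hκ
      obtain ⟨ho, -, hlow⟩ := hG κ hκ
      have hκ0 : (0 : ℝ) < κ := by exact_mod_cast ho.pos
      have h3 : U / 2 ≤ κ := by
        have h4 : (2 : ℝ) ^ (t - 1) ≤ κ := by exact_mod_cast hlow
        have h5 : U = 2 * 2 ^ (t - 1) := by rw [hU, ← pow_succ']; congr 1; omega
        rw [h5]; linarith
      rw [div_eq_mul_inv, mul_inv]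
      apply mul_le_mul_of_nonneg_left _ (by positivity)
      apply mul_le_mul_of_nonneg_right _ (by positivity)
      rw [show (2 : ℝ) / U = (U / 2)⁻¹ by rw [inv_div]]
      exact inv_anti₀ (by positivity) h3
    refine (sum_le_sum h2).trans ?_
    rw [← sum_mul]
    have h3 := hpair M t i g1 g2 g3 G (fun κ hκ => ⟨(hG κ hκ).1, (hG κ hκ).2.1⟩)
    refine (mul_le_mul_of_nonneg_right h3 (by positivity)).trans (le_of_eq ?_)
    have e1 : ((2 : ℝ) ^ (2 * t + i)) ^ η' = U ^ (2 * η') * ((2 : ℝ) ^ i) ^ η' := by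
      rw [pow_add, Real.mul_rpow (by positivity) (by positivity), Real.rpow_mul hU0.le]
      congr 2
      have : U ^ (2 : ℝ) = U ^ 2 := by norm_num
      rw [this, hU, ← pow_mul, mul_comm 2 t]
    have e2 : (((2 : ℝ) ^ η) ^ i)⁻¹ = ((2 : ℝ) ^ i) ^ (-η) := by
      rw [Real.rpow_neg (by positivity)]
      congr 1
      rw [← Real.rpow_natCast, ← Real.rpow_natCast, ← Real.rpow_mul (by norm_num),
        ← Real.rpow_mul (by norm_num), mul_comm]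
    have e3 : q ^ i = ((2 : ℝ) ^ i) ^ η' * ((2 : ℝ) ^ i) ^ (-η) := by
      rw [← Real.rpow_add h2i, hq, ← Real.rpow_natCast, ← Real.rpow_natCast, ← Real.rpow_mul (by norm_num),
        ← Real.rpow_mul (by norm_num)]
      congr 1; ring
    have e4 : U ^ (2 * η' - 1) = U ^ (2 * η') / U := by rw [Real.rpow_sub hU0, Real.rpow_one]
    rw [e1, e2, e3, e4]
    ring
  have h2 : ∑ i ∈ (range n).filter (good M t), 2 * C₁ * U ^ (2 * η' - 1) * q ^ i ≤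
      2 * C₁ * U ^ (2 * η' - 1) * (1 - q)⁻¹ := by
    rw [← mul_sum]
    apply mul_le_mul_of_nonneg_left _ (by positivity)
    have h3 := (summable_geometric_of_lt_one hq0.le hq1).sum_le_tsum ((range n).filter (good M t))
      (fun i _ => by positivity)
    rwa [tsum_geometric_of_lt_one hq0.le hq1] at h3
  have h3 : U ^ (2 * η' - 1) ≤ U ^ (2 * η - 1) :=
    Real.rpow_le_rpow_of_exponent_le hU1 (by linarith)
  have h4 : ∑ κ ∈ G, A₀ / 4 ^ t ≤ A₀ * U ^ (2 * η - 1) := by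
    rw [sum_const, nsmul_eq_mul]
    have e4 : (4 : ℝ) ^ t = U * U := by rw [hU, ← mul_pow]; norm_num
    have e5 : (1 : ℝ) ≤ U ^ (2 * η - 1) := Real.one_le_rpow hU1 (by linarith)
    rw [e4]
    calc (G.card : ℝ) * (A₀ / (U * U)) ≤ U * (A₀ / (U * U)) :=
          mul_le_mul_of_nonneg_right hGc (by positivity)
      _ = A₀ * (1 / U) := by field_simp
      _ ≤ A₀ * U ^ (2 * η - 1) := by
          apply mul_le_mul_of_nonneg_left _ hA₀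
          have : 1 / U ≤ 1 := by rw [div_le_one hU0]; exact hU1
          linarith
  have h5 : 0 < (1 - q)⁻¹ := inv_pos.2 (by linarith)
  have h6 : 2 * C₁ * U ^ (2 * η' - 1) * (1 - q)⁻¹ ≤ 2 * C₁ * (1 - q)⁻¹ * U ^ (2 * η - 1) := by
    have := mul_le_mul_of_nonneg_left h3 (by positivity : (0 : ℝ) ≤ 2 * C₁ * (1 - q)⁻¹)
    linarith
  have h7 : 0 ≤ U ^ (2 * η - 1) := by positivity
  have h8 := (sum_le_sum h1).trans h2
  calc _ ≤ 2 * C₁ * U ^ (2 * η' - 1) * (1 - q)⁻¹ + A₀ * U ^ (2 * η - 1) := add_le_add h8 h4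
    _ ≤ 2 * C₁ * (1 - q)⁻¹ * U ^ (2 * η - 1) + A₀ * U ^ (2 * η - 1) := by linarith
    _ ≤ _ := by linarith

end Pool.Agent.TH930.UD
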