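import Pool.Agent.TH930.UD.Avg

set_option autoImplicit false

/-! Power saving on average over `k`: the theorem. -/

namespace Pool.Agent.TH930.UD

open Finset Filter Topology
open Pool.Agent.H828R3.GP
open Pool.Agent.H499R2.ND (Td)
open Pool.Agent.H319R3.GC (Adm Tm PP PB I1_sum I1_window_finite ncard_trivial)
open Pool.Agent.W36 (kr)
open Pool.Agent.TH235.UB (kr_r3 PP_m3)
open Pool.Agent.H319R2 (beta)
open Pool.Agent.TH930.PS (beta_pos)

/-- the number of integers of `[-X, X]` whose `3x+κ` orbit avoids `[-Y, Y]` -/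
noncomputable def cnt (κ : ℤ) (X Y : ℝ) : ℝ :=
  ({x : ℤ | |(x : ℝ)| ≤ X ∧ ∀ n : ℕ, Y < |(((Td κ)^[n] x : ℤ) : ℝ)|}.ncard : ℝ)

/-- the stuck sets of one `κ`, with the parameter `AA` -/
theorem stuck_AA {s η' η : ℝ} (hs : 0 ≤ s) (hη' : 1 / 2 < η') (hηη : η' < η) (hη1 : η < 1)
    (hsum : (1 / 2 : ℝ) ^ s + (3 / 2 : ℝ) ^ s ≤ 2 ^ η') {B : ℕ} (hB : 2 ≤ (η - η') * B)
    {M κ : ℕ} (hκ : Odd κ) {i : ℕ} (hg : good M (Nat.size κ) i) :
    ((SjM (κ : ℤ) 2 m3 (r3 1) M i).card : ℝ) ≤ |((κ : ℤ) : ℝ)| *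
      (AA M (B * Nat.size κ) (Nat.size κ) η (4 ^ s * 4 ^ η') κ * ((((2 : ℕ) : ℝ) ^ η) ^ i)) := by
  classical
  have hκ0 : (0 : ℝ) < κ := by exact_mod_cast hκ.pos
  have hκ1 : (1 : ℝ) ≤ κ := by exact_mod_cast hκ.pos
  have hκZ : Odd (κ : ℤ) := by exact_mod_cast hκ
  set t := Nat.size κ with ht
  have h2η : (0 : ℝ) < ((2 : ℝ) ^ η) ^ i := by positivity
  rw [Int.cast_natCast, Nat.abs_cast]
  push_cast
  rcases lt_or_ge i (B * t) with hlt | hge
  · have h1 : ((SjM (κ : ℤ) 2 m3 (r3 1) M i).card : ℝ) / (κ * ((2 : ℝ) ^ η) ^ i) ≤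
        AA M (B * t) t η (4 ^ s * 4 ^ η') κ := by
      unfold AA
      have h2 := single_le_sum (s := (range (B * t)).filter (good M t))
        (f := fun i => ((SjM (κ : ℤ) 2 m3 (r3 1) M i).card : ℝ) / (κ * ((2 : ℝ) ^ η) ^ i))
        (fun j _ => by positivity) (mem_filter.2 ⟨mem_range.2 hlt, hg⟩)
      have h3 : 0 ≤ (4 ^ s * 4 ^ η' : ℝ) / 4 ^ t := by positivity
      linarith
    rw [div_le_iff₀ (by positivity)] at h1
    linarith
  · obtain ⟨g1, g2, g3⟩ := hg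
    have h1 := card_SjM hs (by linarith : 0 ≤ η') hsum hκZ g1 (M := M) (by
      rw [Int.natAbs_natCast, ← ht]; omega) g3
    rw [Int.cast_natCast, Nat.abs_cast] at h1
    push_cast at h1
    refine h1.trans ?_
    apply mul_le_mul_of_nonneg_left _ hκ0.le
    have h2 : (κ : ℝ) ^ (-(1 - η')) ≤ 1 := Real.rpow_le_one_of_one_le_of_nonpos hκ1 (by linarith)
    have h3 : ((2 : ℝ) ^ η') ^ i ≤ 1 / 4 ^ t * ((2 : ℝ) ^ η) ^ i := by
      have e1 : ((2 : ℝ) ^ η') ^ i * 4 ^ t = 2 ^ (η' * i + 2 * t) := by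
        rw [Real.rpow_add (by norm_num), Real.rpow_mul (by norm_num), Real.rpow_natCast,
          Real.rpow_mul (by norm_num), Real.rpow_natCast]
        norm_num
      have e2 : ((2 : ℝ) ^ η) ^ i = 2 ^ (η * i) := by
        rw [Real.rpow_mul (by norm_num), Real.rpow_natCast]
      have e3 : ((2 : ℝ) ^ η') ^ i * 4 ^ t ≤ ((2 : ℝ) ^ η) ^ i := by
        rw [e1, e2]
        apply Real.rpow_le_rpow_of_exponent_le (by norm_num)
        have h4 : (B : ℝ) * t ≤ i := by exact_mod_cast hge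
        have h5 : (η - η') * (B * t) ≤ (η - η') * i := mul_le_mul_of_nonneg_left h4 (by linarith)
        have h6 : 2 * (t : ℝ) ≤ (η - η') * B * t := mul_le_mul_of_nonneg_right hB (Nat.cast_nonneg t)
        nlinarith
      rw [div_mul_eq_mul_div, le_div_iff₀ (by positivity)]
      linarith
    have h4 : (4 ^ s * 4 ^ η' : ℝ) / 4 ^ t ≤ AA M (B * t) t η (4 ^ s * 4 ^ η') κ := by
      unfold AA
      have : 0 ≤ ∑ i ∈ (range (B * t)).filter (good M t),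
          ((SjM (κ : ℤ) 2 m3 (r3 1) M i).card : ℝ) / (κ * ((2 : ℝ) ^ η) ^ i) :=
        sum_nonneg fun j _ => by positivity
      linarith
    calc (4 : ℝ) ^ s * 4 ^ η' * (κ : ℝ) ^ (-(1 - η')) * ((2 : ℝ) ^ η') ^ i
        ≤ 4 ^ s * 4 ^ η' * 1 * (1 / 4 ^ t * ((2 : ℝ) ^ η) ^ i) := by
          apply mul_le_mul _ h3 (by positivity) (by positivity)
          exact mul_le_mul_of_nonneg_left h2 (by positivity)
      _ = (4 ^ s * 4 ^ η' : ℝ) / 4 ^ t * ((2 : ℝ) ^ η) ^ i := by ring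
      _ ≤ _ := mul_le_mul_of_nonneg_right h4 h2η.le

/-- the algebra of the exponents for one `κ` -/
theorem rho_le {K A t1 U Y w κ η c : ℝ} (hK : 0 < K) (hA : 0 ≤ A) (hU : 1 ≤ U) (hY : 0 < Y)
    (hκ : 0 < κ) (hw : κ * w = Y) (hκU : κ ≤ U) (hUκ : U ≤ 2 * κ) (hη0 : 0 ≤ η) (hc0 : 0 < c)
    (hc : c < 1 - η) (ht1 : t1 = U * U) :
    K * (A * (t1 * w) ^ (1 - η - c) * w ^ (-(1 - η)) + (t1 * w) ^ (-c)) ≤
      K * ((U * Y) ^ (-c) * (2 * (U * U) ^ (1 - η) * A + 1)) := by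
  have hU0 : 0 < U := by linarith
  have hw0 : 0 < w := by
    by_contra hcon
    push Not at hcon
    have := mul_nonpos_of_nonneg_of_nonpos hκ.le hcon
    linarith
  subst ht1
  have hV : 0 < U * Y := by positivity
  have h1 : U * Y ≤ U * U * w := by
    rw [← hw]
    have := mul_le_mul_of_nonneg_right hκU (mul_nonneg hU0.le hw0.le)
    linarith
  have h2 : U * U * w ≤ 2 * (U * Y) := by
    rw [← hw]
    have := mul_le_mul_of_nonneg_right hUκ (mul_nonneg hU0.le hw0.le)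
    linarith
  have h3 : Y / U ≤ w := by
    rw [div_le_iff₀ hU0, ← hw, mul_comm]
    exact mul_le_mul_of_nonneg_left hκU hw0.le
  have h4 : (U * U * w) ^ (-c) ≤ (U * Y) ^ (-c) :=
    Real.rpow_le_rpow_of_nonpos hV h1 (by linarith)
  have h5 : (U * U * w) ^ (1 - η - c) ≤ 2 * (U * Y) ^ (1 - η - c) := by
    calc (U * U * w) ^ (1 - η - c) ≤ (2 * (U * Y)) ^ (1 - η - c) :=
          Real.rpow_le_rpow (by positivity) h2 (by linarith)
      _ = 2 ^ (1 - η - c) * (U * Y) ^ (1 - η - c) := Real.mul_rpow (by norm_num) hV.le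
      _ ≤ 2 * (U * Y) ^ (1 - η - c) := by
          apply mul_le_mul_of_nonneg_right _ (by positivity)
          calc (2 : ℝ) ^ (1 - η - c) ≤ 2 ^ (1 : ℝ) :=
                Real.rpow_le_rpow_of_exponent_le (by norm_num) (by linarith)
            _ = 2 := Real.rpow_one 2
  have h6 : w ^ (-(1 - η)) ≤ (U * Y) ^ (-(1 - η)) * (U * U) ^ (1 - η) := by
    calc w ^ (-(1 - η)) ≤ (Y / U) ^ (-(1 - η)) :=
          Real.rpow_le_rpow_of_nonpos (by positivity) h3 (by linarith)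
      _ = ((U * Y) / (U * U)) ^ (-(1 - η)) := by congr 1; field_simp
      _ = _ := by
          rw [Real.div_rpow hV.le (by positivity), Real.rpow_neg (by positivity : 0 ≤ U * U), div_inv_eq_mul]
  have h7 : (U * Y) ^ (1 - η - c) * (U * Y) ^ (-(1 - η)) = (U * Y) ^ (-c) := by
    rw [← Real.rpow_add hV]; congr 1; ring
  apply mul_le_mul_of_nonneg_left _ hK.le
  have h8 : A * (U * U * w) ^ (1 - η - c) * w ^ (-(1 - η)) ≤
      A * (2 * (U * Y) ^ (1 - η - c)) * ((U * Y) ^ (-(1 - η)) * (U * U) ^ (1 - η)) := by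
    apply mul_le_mul _ h6 (by positivity) (by positivity)
    exact mul_le_mul_of_nonneg_left h5 hA
  calc A * (U * U * w) ^ (1 - η - c) * w ^ (-(1 - η)) + (U * U * w) ^ (-c)
      ≤ A * (2 * (U * Y) ^ (1 - η - c)) * ((U * Y) ^ (-(1 - η)) * (U * U) ^ (1 - η)) + (U * Y) ^ (-c) :=
        add_le_add h8 h4
    _ = 2 * (U * U) ^ (1 - η) * A * ((U * Y) ^ (1 - η - c) * (U * Y) ^ (-(1 - η))) + (U * Y) ^ (-c) := by
        ring
    _ = _ := by rw [h7]; ring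

/-- all `κ` of one dyadic block -/
theorem block {c : ℝ} (hc0 : 0 < c) (hc : c < 1 - beta) {ε : ℝ} (hε : 0 < ε) :
    ∃ C Y₂ : ℝ, 0 < C ∧ 2 ≤ Y₂ ∧ ∀ t : ℕ, 1 ≤ t → ∀ X Y : ℝ, 1 ≤ X → 0 < Y → ∀ G : Finset ℕ,
    (∀ κ ∈ G, Odd κ ∧ ¬ 3 ∣ κ ∧ Nat.size κ = t ∧ Y₂ * κ ≤ Y ∧ (κ : ℝ) ^ (1 + ε) ≤ Y) →
    ∑ κ ∈ G, cnt κ X Y ≤ C * X * Y ^ (-c) * ((2 : ℝ) ^ t) ^ (1 - c) := by
  have hb0 := beta_pos
  have hbg := Pool.Agent.H319R2.beta_gt
  obtain ⟨η', hη1, hη2⟩ := exists_between (show beta < 1 - c by linarith)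
  obtain ⟨η, hη3, hη4⟩ := exists_between hη2
  have hη' : 1 / 2 < η' := by linarith
  obtain ⟨s, hs, hsum⟩ := Pool.Agent.H319R2.Tk.cond η' hη1
  obtain ⟨M, Y₁, hY₁, hM⟩ := steps_ok2 hε
  obtain ⟨K, hK, Y₀, hY₀, hpb⟩ := pb_allM (adm3 (k := 1) odd_one) M (by linarith : 0 ≤ η) (by linarith)
    hc0 (by linarith : c < 1 - η) (by positivity : 0 ≤ 2 / ε + 2)
  have hA₀ : (0 : ℝ) ≤ 4 ^ s * 4 ^ η' := by positivity
  obtain ⟨C₁, hC₁, hAA⟩ := sum_AA hs hη' hη3 hA₀ hsum.le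
  obtain ⟨B, hB⟩ := exists_nat_ge (2 / (η - η'))
  have hB' : 2 ≤ (η - η') * B := by
    rw [div_le_iff₀ (by linarith)] at hB; linarith
  set Y₂ := max Y₀ Y₁ with hY₂
  refine ⟨4 * K * (2 * C₁ + 1), Y₂, by positivity, le_max_of_le_left hY₀, ?_⟩
  intro t ht X Y hX hY G hG
  set U : ℝ := (2 : ℝ) ^ t with hU
  have hU1 : 1 ≤ U := one_le_pow₀ (by norm_num)
  have hU0 : 0 < U := by linarith
  have hV : 0 < U * Y := by positivity
  have hlow : ∀ κ ∈ G, 2 ^ (t - 1) ≤ κ := by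
    intro κ hκ
    obtain ⟨-, -, hsz, -⟩ := hG κ hκ
    apply Nat.lt_size.1
    omega
  have hhigh : ∀ κ ∈ G, κ < 2 ^ t := by
    intro κ hκ
    obtain ⟨-, -, hsz, -⟩ := hG κ hκ
    rw [← hsz]
    exact Nat.lt_size_self κ
  have key : ∀ κ ∈ G, cnt κ X Y ≤ 4 * X * (K * ((U * Y) ^ (-c) *
      (2 * (U * U) ^ (1 - η) * AA M (B * t) t η (4 ^ s * 4 ^ η') κ + 1))) := by
    intro κ hκ
    obtain ⟨ho, h3, hsz, hYκ, hYε⟩ := hG κ hκ
    have hκ1 : (1 : ℝ) ≤ κ := by exact_mod_cast ho.pos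
    have hκ0 : (0 : ℝ) < κ := by linarith
    have hoZ : Odd (κ : ℤ) := by exact_mod_cast ho
    have hκne : (κ : ℤ) ≠ 0 := by exact_mod_cast ho.pos.ne'
    have habs : |((κ : ℤ) : ℝ)| = κ := by rw [Int.cast_natCast, Nat.abs_cast]
    set w : ℝ := Y / κ with hw
    have hw0 : 0 < w := by positivity
    have hκw : (κ : ℝ) * w = Y := by rw [hw]; field_simp
    have hwY : Y₂ ≤ w := by rw [hw, le_div_iff₀ hκ0]; exact hYκ
    have hwκ : (κ : ℝ) ^ ε ≤ w := by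
      rw [hw, le_div_iff₀ hκ0]
      calc (κ : ℝ) ^ ε * κ = (κ : ℝ) ^ (1 + ε) := by rw [Real.rpow_add hκ0, Real.rpow_one, mul_comm]
        _ ≤ Y := hYε
    have hκU : (κ : ℝ) ≤ U := by rw [hU]; exact_mod_cast (hhigh κ hκ).le
    have hUκ : U ≤ 2 * κ := by
      have h4 : (2 : ℝ) ^ (t - 1) ≤ κ := by exact_mod_cast hlow κ hκ
      have h5 : U = 2 * 2 ^ (t - 1) := by rw [hU, ← pow_succ']; congr 1; omega
      rw [h5]; linarith
    have hw2 : 2 ≤ w := (hY₀.trans (le_max_left _ _)).trans hwY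
    have hN : U * U ≤ w ^ (2 / ε + 2) := by
      have e1 : (κ : ℝ) * κ ≤ w ^ (2 / ε) := by
        calc (κ : ℝ) * κ = (κ : ℝ) ^ (2 : ℝ) := by
              rw [show (2 : ℝ) = ((2 : ℕ) : ℝ) by norm_num, Real.rpow_natCast, sq]
          _ = ((κ : ℝ) ^ ε) ^ (2 / ε) := by
              rw [← Real.rpow_mul hκ0.le]; congr 1; field_simp
          _ ≤ w ^ (2 / ε) := Real.rpow_le_rpow (by positivity) hwκ (by positivity)
      have e2 : (4 : ℝ) ≤ w ^ (2 : ℝ) := by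
        rw [show (2 : ℝ) = ((2 : ℕ) : ℝ) by norm_num, Real.rpow_natCast]
        nlinarith
      rw [Real.rpow_add hw0]
      calc U * U ≤ (2 * κ) * (2 * κ) := mul_le_mul hUκ hUκ hU0.le (by positivity)
        _ = (κ * κ) * 4 := by ring
        _ ≤ w ^ (2 / ε) * w ^ (2 : ℝ) := mul_le_mul e1 e2 (by norm_num) (by positivity)
    have hcop : IsCoprime (κ : ℤ) (PP 2 m3 : ℤ) := by
      rw [PP_m3]
      have h3' : Prime (3 : ℤ) := Int.prime_three
      have h3'' : ¬ (3 : ℤ) ∣ (κ : ℤ) := by exact_mod_cast h3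
      exact_mod_cast ((Prime.coprime_iff_not_dvd h3').2 h3'').symm
    have hρ0 : 0 ≤ K * ((U * Y) ^ (-c) *
      (2 * (U * U) ^ (1 - η) * AA M (B * t) t η (4 ^ s * 4 ^ η') κ + 1)) := by
      have := AA_nonneg M (B * t) t η hA₀ κ
      positivity
    refine count_of_pb hoZ hX hY hρ0 ?_
    intro a ha
    have h1 := hpb (κ : ℤ) hκne hcop (by rw [kr_r3]; exact adm3 hoZ)
      (AA M (B * t) t η (4 ^ s * 4 ^ η') κ) w (U * U) (AA_nonneg M (B * t) t η hA₀ κ)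
      ((le_max_left _ _).trans hwY) (by nlinarith) hN (by
        intro i hi
        push_cast at hi
        obtain ⟨a1, a2, a3⟩ := hM κ ho.pos w ((le_max_right _ _).trans hwY) hwκ i hi
        have h2 := stuck_AA hs hη' hη3 (by linarith) hsum.le hB' ho (M := M) (i := i) ⟨a1, a2, a3⟩
        rw [hsz] at h2
        exact h2) a ha
    rw [habs, hκw] at h1
    rw [habs]
    refine Pool.Agent.H319R3.GC.I1_PB_mono (mul_pos hκ0 ha) h1 ?_
    exact rho_le hK (AA_nonneg M (B * t) t η hA₀ κ) hU1 hY hκ0 hκw hκU hUκ (by linarith)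
      hc0 (by linarith) rfl
  refine (sum_le_sum key).trans ?_
  have h1 := hAA M (B * t) t ht G (fun κ hκ => ⟨(hG κ hκ).1, hhigh κ hκ, hlow κ hκ⟩)
  have hGc : (G.card : ℝ) ≤ U := by
    have h1 : G ⊆ range (2 ^ t) := fun κ hκ => mem_range.2 (hhigh κ hκ)
    have h2 := card_le_card h1
    rw [card_range] at h2
    rw [hU]
    exact_mod_cast h2
  have e1 : ∑ κ ∈ G, 4 * X * (K * ((U * Y) ^ (-c) *
      (2 * (U * U) ^ (1 - η) * AA M (B * t) t η (4 ^ s * 4 ^ η') κ + 1))) =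
      4 * X * (K * ((U * Y) ^ (-c) * (2 * (U * U) ^ (1 - η) *
        ∑ κ ∈ G, AA M (B * t) t η (4 ^ s * 4 ^ η') κ + G.card))) := by
    rw [← mul_sum, ← mul_sum, ← mul_sum, sum_add_distrib, ← mul_sum]
    simp
  rw [e1]
  have e2 : (U * U) ^ (1 - η) * U ^ (2 * η - 1) = U := by
    rw [Real.mul_rpow hU0.le hU0.le, ← Real.rpow_add hU0, ← Real.rpow_add hU0]
    rw [show 1 - η + (1 - η) + (2 * η - 1) = 1 by ring, Real.rpow_one]
  have e3 : 2 * (U * U) ^ (1 - η) * ∑ κ ∈ G, AA M (B * t) t η (4 ^ s * 4 ^ η') κ + G.card ≤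
      (2 * C₁ + 1) * U := by
    have h2 := mul_le_mul_of_nonneg_left h1 (by positivity : 0 ≤ 2 * (U * U) ^ (1 - η))
    have h3 : 2 * (U * U) ^ (1 - η) * (C₁ * U ^ (2 * η - 1)) = 2 * C₁ * U := by
      calc 2 * (U * U) ^ (1 - η) * (C₁ * U ^ (2 * η - 1)) =
          2 * C₁ * ((U * U) ^ (1 - η) * U ^ (2 * η - 1)) := by ring
        _ = 2 * C₁ * U := by rw [e2]
    rw [h3] at h2
    linarith
  have e4 : (U * Y) ^ (-c) * U = Y ^ (-c) * U ^ (1 - c) := by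
    rw [Real.mul_rpow hU0.le hY.le, show 1 - c = -c + 1 by ring, Real.rpow_add hU0, Real.rpow_one]
    ring
  calc 4 * X * (K * ((U * Y) ^ (-c) * (2 * (U * U) ^ (1 - η) *
        ∑ κ ∈ G, AA M (B * t) t η (4 ^ s * 4 ^ η') κ + G.card)))
      ≤ 4 * X * (K * ((U * Y) ^ (-c) * ((2 * C₁ + 1) * U))) := by
        apply mul_le_mul_of_nonneg_left _ (by linarith)
        apply mul_le_mul_of_nonneg_left _ hK.le
        exact mul_le_mul_of_nonneg_left e3 (by positivity)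
    _ = 4 * K * (2 * C₁ + 1) * X * ((U * Y) ^ (-c) * U) := by ring
    _ = _ := by rw [e4]; ring

end Pool.Agent.TH930.UD
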