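import Pool.Agent.TH930.UD.Avg2

set_option autoImplicit false

/-! Power saving on average over all `k ≤ D`. -/

namespace Pool.Agent.TH930.UD

open Finset Filter Topology
open Pool.Agent.H499R2.ND (Td)
open Pool.Agent.H319R3.GC (ncard_trivial)
open Pool.Agent.H319R2 (beta)

/-- THE THEOREM ON AVERAGE -/
theorem avg_saving {c : ℝ} (hc0 : 0 < c) (hc : c < 1 - beta) {ε : ℝ} (hε : 0 < ε) :
    ∃ C : ℝ, 0 < C ∧ ∀ D : ℕ, 1 ≤ D → ∀ X Y : ℝ, 1 ≤ X → (D : ℝ) ^ (1 + ε) ≤ Y →
    ∑ κ ∈ (Icc 1 D).filter (fun κ => κ % 2 = 1 ∧ ¬ 3 ∣ κ), cnt κ X Y ≤ C * (X * D / (D * Y) ^ c) := by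
  classical
  have hb0 := Pool.Agent.TH930.PS.beta_pos
  have hc1 : c < 1 := by linarith
  obtain ⟨C₁, Y₂, hC₁, hY₂, hblock⟩ := block hc0 hc hε
  set Z : ℝ := ((Y₂ ^ (1 / ε)) ^ 2 * Y₂) ^ c with hZ
  have hZ0 : 0 < Z := by positivity
  set r : ℝ := 2 ^ (1 - c) with hr
  have hr1 : 1 < r := Real.one_lt_rpow (by norm_num) (by linarith)
  have hr0 : 0 < r := by linarith
  set C₂ : ℝ := r * r / (r - 1) with hC₂
  have hC₂0 : 0 < C₂ := div_pos (by positivity) (by linarith)
  refine ⟨C₁ * C₂ + 3 * Z, by positivity, fun D hD X Y hX hDY => ?_⟩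
  have hD1 : (1 : ℝ) ≤ D := by exact_mod_cast hD
  have hD0 : (0 : ℝ) < D := by linarith
  have hY1 : 1 ≤ Y := (Real.one_le_rpow hD1 (by linarith)).trans hDY
  have hY0 : 0 < Y := by linarith
  have hDY0 : 0 < (D * Y : ℝ) ^ c := Real.rpow_pos_of_pos (by positivity) _
  set F : Finset ℕ := (Icc 1 D).filter (fun κ => κ % 2 = 1 ∧ ¬ 3 ∣ κ) with hF
  have hgoal0 : 0 ≤ X * D / (D * Y) ^ c := by positivity
  rcases lt_or_ge Y (Y₂ * D) with hsm | hbig
  · -- small parameters
    have hDε : (D : ℝ) ^ ε ≤ Y₂ := by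
      have h1 : (D : ℝ) ^ ε * D ≤ Y₂ * D := by
        calc (D : ℝ) ^ ε * D = (D : ℝ) ^ (1 + ε) := by rw [Real.rpow_add hD0, Real.rpow_one, mul_comm]
          _ ≤ Y := hDY
          _ ≤ Y₂ * D := hsm.le
      exact le_of_mul_le_mul_right h1 hD0
    have hDle : (D : ℝ) ≤ Y₂ ^ (1 / ε) := by
      calc (D : ℝ) = ((D : ℝ) ^ ε) ^ (1 / ε) := by
            rw [← Real.rpow_mul hD0.le, mul_one_div_cancel hε.ne', Real.rpow_one]
        _ ≤ Y₂ ^ (1 / ε) := Real.rpow_le_rpow (by positivity) hDε (by positivity)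
    have h1 : (D * Y : ℝ) ^ c ≤ Z := by
      apply Real.rpow_le_rpow (by positivity) _ hc0.le
      have h2 : (D : ℝ) * D ≤ (Y₂ ^ (1 / ε)) ^ 2 := by nlinarith
      calc (D : ℝ) * Y ≤ D * (Y₂ * D) := mul_le_mul_of_nonneg_left hsm.le hD0.le
        _ = (D * D) * Y₂ := by ring
        _ ≤ _ := mul_le_mul_of_nonneg_right h2 (by linarith)
    have h2 : ∀ κ ∈ F, cnt κ X Y ≤ 3 * X := fun κ _ =>
      ncard_trivial X hX _ (fun x hx => hx.1)
    have h3 : (F.card : ℝ) ≤ D := by
      have h4 := card_filter_le (Icc 1 D) (fun κ => κ % 2 = 1 ∧ ¬ 3 ∣ κ)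
      rw [Nat.card_Icc] at h4
      have h5 : F.card ≤ D := by rw [hF]; omega
      exact_mod_cast h5
    calc ∑ κ ∈ F, cnt κ X Y ≤ F.card • (3 * X) := sum_le_card_nsmul _ _ _ h2
      _ = F.card * (3 * X) := by rw [nsmul_eq_mul]
      _ ≤ D * (3 * X) := mul_le_mul_of_nonneg_right h3 (by linarith)
      _ ≤ 3 * Z * (X * D / (D * Y) ^ c) := by
          have h4 : 1 ≤ Z / (D * Y) ^ c := by rw [le_div_iff₀ hDY0]; linarith
          calc D * (3 * X) = 3 * X * D * 1 := by ring
            _ ≤ 3 * X * D * (Z / (D * Y) ^ c) := mul_le_mul_of_nonneg_left h4 (by positivity)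
            _ = _ := by ring
      _ ≤ _ := by
          apply mul_le_mul_of_nonneg_right _ hgoal0
          have : 0 < C₁ * C₂ := by positivity
          linarith
  · -- dyadic blocks
    set N := Nat.size D with hN
    have hmaps : ∀ κ ∈ F, Nat.size κ ∈ range (N + 1) := by
      intro κ hκ
      rw [hF, mem_filter, mem_Icc] at hκ
      rw [mem_range]
      have := Nat.size_le_size hκ.1.2
      omega
    rw [← sum_fiberwise_of_maps_to hmaps]
    have h1 : ∀ t ∈ range (N + 1), ∑ κ ∈ F.filter (fun κ => Nat.size κ = t), cnt κ X Y ≤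
        C₁ * X * Y ^ (-c) * r ^ t := by
      intro t _
      rcases Nat.eq_zero_or_pos t with h0 | hpos
      · have : F.filter (fun κ => Nat.size κ = t) = ∅ := by
          rw [filter_eq_empty_iff]
          intro κ hκ h
          rw [hF, mem_filter, mem_Icc] at hκ
          rw [h0, Nat.size_eq_zero] at h
          omega
        rw [this, sum_empty]
        positivity
      · have h2 := hblock t hpos X Y hX hY0 (F.filter (fun κ => Nat.size κ = t)) (by
          intro κ hκ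
          rw [mem_filter, hF, mem_filter, mem_Icc] at hκ
          obtain ⟨⟨⟨a1, a2⟩, a3, a4⟩, a5⟩ := hκ
          have hκD : (κ : ℝ) ≤ D := by exact_mod_cast a2
          have hκ0 : (0 : ℝ) ≤ κ := Nat.cast_nonneg κ
          refine ⟨Nat.odd_iff.2 a3, a4, a5, ?_, ?_⟩
          · exact (mul_le_mul_of_nonneg_left hκD (by linarith)).trans hbig
          · exact (Real.rpow_le_rpow hκ0 hκD (by linarith)).trans hDY)
        refine h2.trans (le_of_eq ?_)
        congr 1
        rw [hr, ← Real.rpow_natCast, ← Real.rpow_natCast, ← Real.rpow_mul (by norm_num),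
          ← Real.rpow_mul (by norm_num), mul_comm]
    refine (sum_le_sum h1).trans ?_
    rw [← mul_sum]
    have h2 : ∑ t ∈ range (N + 1), r ^ t ≤ r * r ^ N / (r - 1) := by
      rw [geom_sum_eq hr1.ne', pow_succ]
      apply div_le_div_of_nonneg_right _ (by linarith)
      linarith
    have h3 : r ^ N ≤ r * (D : ℝ) ^ (1 - c) := by
      have h4 : 2 ^ (N - 1) ≤ D := by
        apply Nat.lt_size.1
        have : 0 < Nat.size D := Nat.size_pos.2 hD
        omega
      have h5 : (2 : ℝ) ^ N ≤ 2 * D := by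
        have h6 : (2 : ℝ) ^ (N - 1) ≤ D := by exact_mod_cast h4
        have h7 : (2 : ℝ) ^ N = 2 * 2 ^ (N - 1) := by
          rw [← pow_succ']; congr 1
          have : 0 < Nat.size D := Nat.size_pos.2 hD
          omega
        rw [h7]; linarith
      have h6 : r ^ N = ((2 : ℝ) ^ N) ^ (1 - c) := by
        rw [hr, ← Real.rpow_natCast, ← Real.rpow_natCast, ← Real.rpow_mul (by norm_num),
          ← Real.rpow_mul (by norm_num), mul_comm]
      rw [h6, hr, ← Real.mul_rpow (by norm_num) hD0.le]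
      exact Real.rpow_le_rpow (by positivity) h5 (by linarith)
    have h4 : ∑ t ∈ range (N + 1), r ^ t ≤ C₂ * (D : ℝ) ^ (1 - c) := by
      refine h2.trans ?_
      rw [hC₂, div_mul_eq_mul_div]
      apply div_le_div_of_nonneg_right _ (by linarith)
      have := mul_le_mul_of_nonneg_left h3 hr0.le
      linarith
    have h5 : (0 : ℝ) ≤ C₁ * X * Y ^ (-c) := by positivity
    refine (mul_le_mul_of_nonneg_left h4 h5).trans ?_
    have h6 : Y ^ (-c) * (D : ℝ) ^ (1 - c) = D / (D * Y) ^ c := by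
      rw [Real.mul_rpow hD0.le hY0.le, Real.rpow_neg hY0.le, Real.rpow_sub hD0, Real.rpow_one]
      field_simp
    calc C₁ * X * Y ^ (-c) * (C₂ * (D : ℝ) ^ (1 - c)) = C₁ * C₂ * (X * (Y ^ (-c) * (D : ℝ) ^ (1 - c))) := by
          ring
      _ = C₁ * C₂ * (X * D / (D * Y) ^ c) := by rw [h6]; ring
      _ ≤ _ := by
          apply mul_le_mul_of_nonneg_right _ hgoal0
          linarith

end Pool.Agent.TH930.UD
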