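import Pool.Agent.TH930.UD.Pass

/-! Power saving for the maps with offsets `κ r` from a bound for the points that stay above a level for
`M i` steps, above the starting level only; the number of stages depends on `N y`, `N` a power of `y`. -/

set_option autoImplicit false

namespace Pool.Agent.TH930.UD

open Finset Pool.Agent.H319R3.GC Pool.Agent.H828R3.GP Pool.Agent.W36

variable {d : ℕ} {m r : ℕ → ℤ}

/-- the constant -/
noncomputable def CstM (d : ℕ) (R : ℝ) (M : ℕ) : ℝ :=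
  d * d * (5 * (25 * M + 1) ^ (d + 1) * (200 * M * R * d + 1))

/-- the density bound at the starting scales -/
theorem pb_baseM {κ : ℤ} (hκ0 : κ ≠ 0) (hκc : Nat.Coprime κ.natAbs (PP d m)) (h : Adm d m (kr κ r))
    {R : ℝ} (hR : ∀ i < d, |(r i : ℝ)| ≤ R) (hR0 : 0 ≤ R) {M : ℕ} {A η : ℝ}
    (hA : 0 ≤ A) (hη0 : 0 ≤ η) (hη1 : η < 1) {y t₁ a : ℝ}
    (hSt : ∀ i : ℕ, y ≤ (d : ℝ) ^ i →
      ((SjM κ d m r M i).card : ℝ) ≤ |(κ : ℝ)| * (A * ((d : ℝ) ^ η) ^ i))
    (hy : 1 ≤ y) (ht₁ : 1 ≤ t₁) (ha : 0 < a) (hya : y ≤ 2 * a) (hat : Real.log a ≤ t₁)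
    (hyt : 100 * M * t₁ ^ 2 * R * d ≤ y) {Q : ℕ} (hQ0 : 0 < Q) (hQκ : Nat.Coprime κ.natAbs Q)
    (hQ : (Q : ℝ) ≤ (2 * a / y) ^ (1 - η)) :
    PB (Sy d m (kr κ r) (|(κ : ℝ)| * y)) (|(κ : ℝ)| * a) Q
      (CstM d R M * A * t₁ ^ (2 * d + 5) * y ^ (-(1 - η))) := by
  classical
  have hκp : 0 < |(κ : ℝ)| := abs_pos.2 (by exact_mod_cast hκ0)
  have hy0 : 0 < y := by linarith
  have hd2 := h.two_le
  have hdR : (2 : ℝ) ≤ d := by exact_mod_cast hd2
  have hd0 : (0 : ℝ) < d := by linarith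
  have hQR : (0 : ℝ) < Q := by exact_mod_cast hQ0
  have hl2 := Real.log_two_gt_d9
  have hl2' := Real.log_two_lt_d9
  have hη' : 0 < 1 - η := by linarith
  intro c
  obtain ⟨l, hl1, hl3⟩ := exists_pow hd2 hy
  obtain ⟨k0, hk1, hk3⟩ := exists_pow hd2 (y := 2 * a) (by linarith)
  set k := k0 + 1 with hk
  have hkA : (d : ℝ) ^ k ≤ 2 * a * d := by rw [hk, pow_succ]; nlinarith
  have hkA2 : 2 * a < (d : ℝ) ^ k := by rw [hk, pow_succ]; linarith
  have hlk : l < k := by
    have : (d : ℝ) ^ l < (d : ℝ) ^ k := by linarith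
    exact (pow_lt_pow_iff_right₀ (by linarith)).1 this
  have hlogd : 1 / 2 ≤ Real.log d := by
    have := Real.log_le_log (by norm_num) hdR
    linarith
  have hkt : (k : ℝ) ≤ 5 * t₁ := by
    have h1 : (k0 : ℝ) * Real.log d ≤ Real.log (2 * a) := by
      rw [← Real.log_pow]
      exact Real.log_le_log (by positivity) hk1
    rw [Real.log_mul (by norm_num) ha.ne'] at h1
    have h2 : (k0 : ℝ) * (1 / 2) ≤ k0 * Real.log d := mul_le_mul_of_nonneg_left hlogd (Nat.cast_nonneg _)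
    rw [hk]; push_cast
    linarith
  have hkR : (1 : ℝ) ≤ k := by
    have : 1 ≤ k := by omega
    exact_mod_cast this
  have hk2 : (k : ℝ) * k ≤ 25 * t₁ ^ 2 := by nlinarith
  -- finset of the window
  set S0 := Sy d m (kr κ r) (|(κ : ℝ)| * y) with hS0
  set W : Set ℤ := {x : ℤ | x ∈ S0 ∧ |(κ : ℝ)| * a ≤ |(x : ℝ)| ∧ |(x : ℝ)| < 2 * (|(κ : ℝ)| * a) ∧
    (Q : ℤ) ∣ x - c} with hW
  have hWfin : W.Finite := by
    apply (I1_window_finite S0 (2 * (|(κ : ℝ)| * a))).subset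
    rintro x ⟨h1, -, h3, -⟩
    exact ⟨h1, h3⟩
  have hwc : wc S0 (|(κ : ℝ)| * a) Q c = (hWfin.toFinset.card : ℝ) := by
    unfold wc
    rw [← Set.ncard_eq_toFinset_card W hWfin]
  rw [hwc]
  set K : ℝ := (d : ℝ) ^ η with hK
  have hK1 : 1 ≤ K := Real.one_le_rpow (by linarith) hη0
  have hKd : K < d := by
    calc K = (d : ℝ) ^ η := rfl
      _ < (d : ℝ) ^ (1 : ℝ) := Real.rpow_lt_rpow_of_exponent_lt (by linarith) hη1
      _ = d := Real.rpow_one _
  have hκ : K / d = (d : ℝ) ^ (-(1 - η)) := by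
    rw [hK, show -(1 - η) = η - 1 by ring, Real.rpow_sub hd0, Real.rpow_one]
  have hκ0' : 0 < K / d := by positivity
  have hMn : (0 : ℝ) ≤ M := Nat.cast_nonneg M
  have hstay := card_stayM hκ0 hκc h hR hR0 (M := M) hA hK1 hKd (k := k) (l := l) (q := Q)
    (by
      intro i hi
      apply hSt i
      refine hl3.le.trans ?_
      rw [← pow_succ']
      exact pow_le_pow_right₀ (by linarith) hi) hQ0 hQκ c
    (by omega) hlk.le
    (by
      have h1 : 4 * (M * ((k : ℝ) * k)) * R * d ≤ (d : ℝ) ^ l * d := by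
        have h2 : 4 * (M * ((k : ℝ) * k)) * R * d ≤ 100 * M * t₁ ^ 2 * R * d := by
          apply mul_le_mul_of_nonneg_right _ hd0.le
          apply mul_le_mul_of_nonneg_right _ hR0
          have := mul_le_mul_of_nonneg_left hk2 hMn
          linarith
        linarith
      exact le_of_mul_le_mul_right h1 hd0) hWfin.toFinset (by
      intro x hx
      rw [Set.Finite.mem_toFinset] at hx
      obtain ⟨h1, h2, h3, h4⟩ := hx
      refine ⟨?_, h4, fun n => ?_⟩
      · have := mul_lt_mul_of_pos_left hkA2 hκp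
        linarith
      · have h5 := h1 n
        have h6 := mul_le_mul_of_nonneg_left hl1 hκp.le
        linarith)
  refine hstay.trans ?_
  -- `κ^k ≤ κ^l / Q`
  have hpk : ∀ n : ℕ, (K / d) ^ n = ((d : ℝ) ^ n) ^ (-(1 - η)) := by
    intro n
    rw [hκ, ← Real.rpow_natCast, ← Real.rpow_natCast (d : ℝ) n, ← Real.rpow_mul hd0.le,
      ← Real.rpow_mul hd0.le, mul_comm]
  have hkl : (K / d) ^ k ≤ (K / d) ^ l / Q := by
    rw [le_div_iff₀ hQR]
    have h1 : (K / d) ^ k ≤ (K / d) ^ l * (2 * a / y) ^ (-(1 - η)) := by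
      rw [hpk, hpk, ← Real.mul_rpow (by positivity) (by positivity)]
      apply Real.rpow_le_rpow_of_nonpos (by positivity) _ (by linarith)
      calc (d : ℝ) ^ l * (2 * a / y) ≤ y * (2 * a / y) :=
            mul_le_mul_of_nonneg_right hl1 (by positivity)
        _ = 2 * a := by field_simp
        _ ≤ _ := hkA2.le
    have h2 : (2 * a / y) ^ (-(1 - η)) * (2 * a / y) ^ (1 - η) = 1 := by
      rw [← Real.rpow_add (by positivity), neg_add_cancel, Real.rpow_zero]
    calc (K / d) ^ k * Q ≤ ((K / d) ^ l * (2 * a / y) ^ (-(1 - η))) * (2 * a / y) ^ (1 - η) :=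
          mul_le_mul h1 hQ hQR.le (by positivity)
      _ = (K / d) ^ l * ((2 * a / y) ^ (-(1 - η)) * (2 * a / y) ^ (1 - η)) := by ring
      _ = _ := by rw [h2, mul_one]
  have hly : (K / d) ^ l ≤ d * y ^ (-(1 - η)) := by
    rw [hpk]
    have h1 : y / d ≤ (d : ℝ) ^ l := by rw [div_le_iff₀ hd0]; linarith
    have h2 : ((d : ℝ) ^ l) ^ (-(1 - η)) ≤ (y / d) ^ (-(1 - η)) :=
      Real.rpow_le_rpow_of_nonpos (by positivity) h1 (by linarith)
    refine h2.trans ?_
    rw [Real.div_rpow hy0.le hd0.le, div_eq_mul_inv, mul_comm]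
    apply mul_le_mul_of_nonneg_right _ (Real.rpow_nonneg hy0.le _)
    rw [← Real.rpow_neg hd0.le, neg_neg]
    calc (d : ℝ) ^ (1 - η) ≤ (d : ℝ) ^ (1 : ℝ) :=
          Real.rpow_le_rpow_of_exponent_le (by linarith) (by linarith)
      _ = d := Real.rpow_one _
  set V : ℝ := (K / d) ^ l / Q with hV
  have hV0 : 0 < V := by positivity
  have h1 : 8 * (M * ((k : ℝ) * k)) * R * d * ((d : ℝ) ^ k * (K / d) ^ l) / Q + (d : ℝ) ^ k * (K / d) ^ k ≤
      (200 * M * R * d + 1) * t₁ ^ 2 * (2 * a * d) * V := by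
    have e1 : 8 * (M * ((k : ℝ) * k)) * R * d * ((d : ℝ) ^ k * (K / d) ^ l) / Q =
        8 * (M * ((k : ℝ) * k)) * R * d * (d : ℝ) ^ k * V := by rw [hV]; ring
    rw [e1]
    have e2 : (d : ℝ) ^ k * (K / d) ^ k ≤ (d : ℝ) ^ k * V := mul_le_mul_of_nonneg_left hkl (by positivity)
    have e3 : 8 * (M * ((k : ℝ) * k)) * R * d + 1 ≤ (200 * M * R * d + 1) * t₁ ^ 2 := by
      have e4 : 8 * (M * ((k : ℝ) * k)) * R * d ≤ 8 * (M * (25 * t₁ ^ 2)) * R * d := by
        apply mul_le_mul_of_nonneg_right _ hd0.le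
        apply mul_le_mul_of_nonneg_right _ hR0
        have := mul_le_mul_of_nonneg_left hk2 hMn
        linarith
      have e5 : 1 ≤ t₁ ^ 2 := by nlinarith
      nlinarith
    calc 8 * (M * ((k : ℝ) * k)) * R * d * (d : ℝ) ^ k * V + (d : ℝ) ^ k * (K / d) ^ k
        ≤ 8 * (M * ((k : ℝ) * k)) * R * d * (d : ℝ) ^ k * V + (d : ℝ) ^ k * V := by linarith
      _ = (8 * (M * ((k : ℝ) * k)) * R * d + 1) * (d : ℝ) ^ k * V := by ring
      _ ≤ ((200 * M * R * d + 1) * t₁ ^ 2) * (2 * a * d) * V := by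
          apply mul_le_mul_of_nonneg_right _ hV0.le
          exact mul_le_mul e3 hkA (by positivity) (by positivity)
  have h2 : (M * ((k : ℝ) * k) + 1) ^ (d + 1) ≤ ((25 * M + 1) * t₁ ^ 2) ^ (d + 1) := by
    apply pow_le_pow_left₀ (by positivity)
    have e5 : 1 ≤ t₁ ^ 2 := by nlinarith
    have := mul_le_mul_of_nonneg_left hk2 hMn
    linarith
  have hmain : (k : ℝ) * (A * ((M * ((k : ℝ) * k) + 1) ^ (d + 1) *
      (8 * (M * ((k : ℝ) * k)) * R * d * ((d : ℝ) ^ k * (K / d) ^ l) / Q + (d : ℝ) ^ k * (K / d) ^ k)))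
      ≤ CstM d R M * A * t₁ ^ (2 * d + 5) * y ^ (-(1 - η)) * (2 * a) / Q := by
    calc (k : ℝ) * (A * ((M * ((k : ℝ) * k) + 1) ^ (d + 1) *
          (8 * (M * ((k : ℝ) * k)) * R * d * ((d : ℝ) ^ k * (K / d) ^ l) / Q + (d : ℝ) ^ k * (K / d) ^ k)))
          ≤ (5 * t₁) * (A * (((25 * M + 1) * t₁ ^ 2) ^ (d + 1) *
            ((200 * M * R * d + 1) * t₁ ^ 2 * (2 * a * d) * V))) := by
            apply mul_le_mul hkt _ (by positivity) (by positivity)
            apply mul_le_mul_of_nonneg_left _ (by positivity)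
            exact mul_le_mul h2 h1 (by positivity) (by positivity)
        _ = (A * d * (5 * (25 * M + 1) ^ (d + 1) * (200 * M * R * d + 1))) * t₁ ^ (2 * d + 5) *
            (K / d) ^ l * (2 * a) / Q := by
            rw [hV, mul_pow, ← pow_mul]
            have e : t₁ ^ (2 * d + 5) = t₁ * t₁ ^ (2 * (d + 1)) * t₁ ^ 2 := by
              rw [← pow_succ', ← pow_add]; congr 1
            rw [e]
            ring
        _ ≤ (A * d * (5 * (25 * M + 1) ^ (d + 1) * (200 * M * R * d + 1))) * t₁ ^ (2 * d + 5) *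
            (d * y ^ (-(1 - η))) * (2 * a) / Q := by
            apply div_le_div_of_nonneg_right _ hQR.le
            apply mul_le_mul_of_nonneg_right _ (by positivity)
            exact mul_le_mul_of_nonneg_left hly (by positivity)
        _ = CstM d R M * A * t₁ ^ (2 * d + 5) * y ^ (-(1 - η)) * (2 * a) / Q := by
            unfold CstM; ring
  refine (mul_le_mul_of_nonneg_left hmain hκp.le).trans (le_of_eq ?_)
  ring


end Pool.Agent.TH930.UD
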