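import Pool.Agent.TH930.UD.Words
import Pool.Agent.TH930.UD.All

set_option autoImplicit false

/-! Power saving in terms of the level itself, for levels above `|k| ^ (1 + ε)`. -/

namespace Pool.Agent.TH930.UD

open Finset Filter Topology
open Pool.Agent.H828R3.GP
open Pool.Agent.H499R2.ND (Td)
open Pool.Agent.H319R3.GC (Adm Tm PP PB I1_sum I1_window_finite ncard_trivial)
open Pool.Agent.W36 (kr)
open Pool.Agent.TH235.UB (kr_r3 PP_m3)
open Pool.Agent.H319R2 (beta)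
open Pool.Agent.TH930.PS (beta_pos)

/-- the number of steps per level is enough for the size of `k` -/
theorem steps_ok (E : ℝ) (hE : 0 ≤ E) : ∃ M : ℕ, ∃ Y₁ : ℝ, 2 ≤ Y₁ ∧ ∀ k : ℤ, k ≠ 0 → ∀ y : ℝ, Y₁ ≤ y →
    |(k : ℝ)| ≤ y ^ E → ∀ i : ℕ, y ≤ (2 : ℝ) ^ i →
    1 ≤ i ∧ i + Nat.size k.natAbs + 1 ≤ M * i ∧ 4 * ((M : ℝ) * i) ≤ (2 : ℝ) ^ (i - 1) := by
  obtain ⟨e, he⟩ := exists_nat_ge E
  set M : ℕ := 3 + e with hM
  have e2 : ∀ᶠ i : ℕ in atTop, 8 * (M : ℝ) * (i : ℝ) ≤ (2 : ℝ) ^ i := by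
    have h1 := tendsto_pow_const_div_const_pow_of_one_lt 1 (show (1 : ℝ) < 2 by norm_num)
    have h2 := h1.eventually_le_const (show (0 : ℝ) < 1 / (8 * M) by positivity)
    filter_upwards [h2] with i hi
    rw [div_le_div_iff₀ (by positivity) (by positivity), pow_one] at hi
    linarith
  obtain ⟨i0, hi0⟩ := eventually_atTop.1 e2
  refine ⟨M, 2 ^ (i0 + 1), ?_, ?_⟩
  · calc (2 : ℝ) = 2 ^ 1 := (pow_one _).symm
      _ ≤ 2 ^ (i0 + 1) := pow_le_pow_right₀ (by norm_num) (by omega)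
  intro k hk y hy hky i hi
  have h2i : (2 : ℝ) ^ (i0 + 1) ≤ 2 ^ i := hy.trans hi
  have hi1 : i0 + 1 ≤ i := (pow_le_pow_iff_right₀ (by norm_num)).1 h2i
  have hy0 : 0 < y := lt_of_lt_of_le (by positivity) hy
  have hk1 : |(k : ℝ)| ≤ (2 : ℝ) ^ (e * i) := by
    refine hky.trans ?_
    calc y ^ E ≤ ((2 : ℝ) ^ i) ^ E := Real.rpow_le_rpow hy0.le hi hE
      _ ≤ ((2 : ℝ) ^ i) ^ (e : ℝ) :=
          Real.rpow_le_rpow_of_exponent_le (one_le_pow₀ (by norm_num)) he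
      _ = 2 ^ (e * i) := by rw [Real.rpow_natCast, ← pow_mul, mul_comm]
  have hk2 : k.natAbs ≤ 2 ^ (e * i) := by
    rw [← Int.cast_abs, Int.abs_eq_natAbs] at hk1
    exact_mod_cast hk1
  have hsz : Nat.size k.natAbs ≤ e * i + 1 := by
    apply Nat.size_le.2
    calc k.natAbs ≤ 2 ^ (e * i) := hk2
      _ < 2 ^ (e * i + 1) := Nat.pow_lt_pow_right (by norm_num) (by omega)
  refine ⟨by omega, ?_, ?_⟩
  · rw [hM, add_mul]
    omega
  · have h1 := hi0 i (by omega)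
    have e : (2 : ℝ) ^ i = 2 * (2 : ℝ) ^ (i - 1) := by rw [← pow_succ']; congr 1; omega
    rw [e] at h1
    linarith

/-- THE THEOREM -/
theorem level_saving {c : ℝ} (hc0 : 0 < c) (hc : c < 1 - beta) {ε : ℝ} (hε : 0 < ε) :
    ∃ C : ℝ, 0 < C ∧ ∀ k : ℤ, Odd k → ¬ (3 : ℤ) ∣ k → ∀ X Y : ℝ, 1 ≤ X → |(k : ℝ)| ^ (1 + ε) ≤ Y →
    ({x : ℤ | |(x : ℝ)| ≤ X ∧ ∀ n : ℕ, Y < |(((Td k)^[n] x : ℤ) : ℝ)|}.ncard : ℝ) ≤ C * (X / Y ^ c) := by
  have hb0 := beta_pos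
  obtain ⟨η, hη1, hη2⟩ := exists_between (show beta < 1 - c by linarith)
  have hη0 : 0 < η := by linarith
  obtain ⟨s, hs, hsum⟩ := Pool.Agent.H319R2.Tk.cond η hη1
  set E : ℝ := 1 / ε with hE
  have hE0 : 0 ≤ E := by positivity
  obtain ⟨M, Y₁, hY₁, hM⟩ := steps_ok E hE0
  obtain ⟨K, hK, Y₀, hY₀, hpb⟩ := pb_allM (adm3 (k := 1) odd_one) M hη0.le (by linarith) hc0
    (by linarith : c < 1 - η) hE0
  set Y₂ := max Y₀ Y₁ with hY₂
  have hY₂2 : 2 ≤ Y₂ := le_max_of_le_left hY₀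
  set K' : ℝ := K * (4 ^ s * 4 ^ η + 1) with hK'
  have hK'0 : 0 < K' := by positivity
  set Z : ℝ := (Y₂ ^ (1 + E)) ^ c with hZ
  have hZ0 : 0 < Z := by positivity
  refine ⟨4 * K' + 3 * Z, by positivity, fun k hk hk3 X Y hX hkY => ?_⟩
  have hk0 : k ≠ 0 := by rintro rfl; simp at hk
  have hkp : 0 < |(k : ℝ)| := abs_pos.2 (by exact_mod_cast hk0)
  have hk1 : (1 : ℝ) ≤ |(k : ℝ)| := by exact_mod_cast Int.one_le_abs hk0
  have hY1 : 1 ≤ Y := (Real.one_le_rpow hk1 (by linarith)).trans hkY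
  have hYp : 0 < Y := by linarith
  have hYc : 0 < Y ^ c := Real.rpow_pos_of_pos hYp _
  set w : ℝ := Y / |(k : ℝ)| with hw
  have hw0 : 0 < w := by positivity
  have hyw : |(k : ℝ)| * w = Y := by rw [hw]; field_simp
  have hkw : |(k : ℝ)| ≤ w ^ E := by
    have h1 : |(k : ℝ)| ^ ε ≤ w := by
      rw [hw, le_div_iff₀ hkp]
      calc |(k : ℝ)| ^ ε * |(k : ℝ)| = |(k : ℝ)| ^ (1 + ε) := by
            rw [Real.rpow_add hkp, Real.rpow_one, mul_comm]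
        _ ≤ Y := hkY
    calc |(k : ℝ)| = (|(k : ℝ)| ^ ε) ^ E := by
          rw [← Real.rpow_mul hkp.le, hE, mul_one_div_cancel hε.ne', Real.rpow_one]
      _ ≤ w ^ E := Real.rpow_le_rpow (by positivity) h1 hE0
  rcases lt_or_ge w Y₂ with hsm | hbig
  · have h1 := ncard_trivial X hX
      {x : ℤ | |(x : ℝ)| ≤ X ∧ ∀ n : ℕ, Y < |(((Td k)^[n] x : ℤ) : ℝ)|} (fun x hx => hx.1)
    refine h1.trans ?_
    have h2 : Y ≤ Y₂ ^ (1 + E) := by
      rw [← hyw, Real.rpow_add (by linarith), Real.rpow_one, mul_comm]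
      apply mul_le_mul hsm.le _ hkp.le (by linarith)
      exact hkw.trans (Real.rpow_le_rpow hw0.le hsm.le hE0)
    have h3 : Y ^ c ≤ Z := Real.rpow_le_rpow hYp.le h2 hc0.le
    have h4 : 1 ≤ Z / Y ^ c := by rw [le_div_iff₀ hYc]; linarith
    have h5 : 0 ≤ X / Y ^ c := by positivity
    calc 3 * X = 3 * X * 1 := by ring
      _ ≤ 3 * X * (Z / Y ^ c) := mul_le_mul_of_nonneg_left h4 (by linarith)
      _ = 3 * Z * (X / Y ^ c) := by ring
      _ ≤ (4 * K' + 3 * Z) * (X / Y ^ c) := by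
          apply mul_le_mul_of_nonneg_right _ h5
          linarith
  · have hcop : IsCoprime k (PP 2 m3 : ℤ) := by
      rw [PP_m3]
      have h3 : Prime (3 : ℤ) := Int.prime_three
      exact_mod_cast ((Prime.coprime_iff_not_dvd h3).2 hk3).symm
    have hwE : |(k : ℝ)| ≤ w ^ E := hkw
    have hNw : |(k : ℝ)| * w = Y := hyw
    have hbase : ∀ a : ℝ, 0 < a → PB (Sy 2 m3 (kr k (r3 1)) Y) (|(k : ℝ)| * a) 1 (K' * Y ^ (-c)) := by
      intro a ha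
      have h1 := hpb k hk0 hcop (by rw [kr_r3]; exact adm3 hk)
        (4 ^ s * 4 ^ η * |(k : ℝ)| ^ (-(1 - η))) w (|(k : ℝ)|) (by positivity)
        ((le_max_left _ _).trans hbig) hk1 hwE (by
          intro i hi
          push_cast at hi
          obtain ⟨a1, a2, a3⟩ := hM k hk0 w ((le_max_right _ _).trans hbig) hwE i hi
          exact card_SjM hs hη0.le hsum.le hk a1 a2 a3) a ha
      rw [hNw] at h1
      refine Pool.Agent.H319R3.GC.I1_PB_mono (mul_pos hkp ha) h1 ?_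
      have e1 : |(k : ℝ)| ^ (-(1 - η)) * w ^ (-(1 - η)) = Y ^ (-(1 - η)) := by
        rw [← Real.mul_rpow hkp.le hw0.le, hNw]
      have e2 : Y ^ (1 - η - c) * Y ^ (-(1 - η)) = Y ^ (-c) := by
        rw [← Real.rpow_add hYp]; congr 1; ring
      have e3 : 4 ^ s * 4 ^ η * |(k : ℝ)| ^ (-(1 - η)) * Y ^ (1 - η - c) * w ^ (-(1 - η)) =
          4 ^ s * 4 ^ η * (Y ^ (1 - η - c) * (|(k : ℝ)| ^ (-(1 - η)) * w ^ (-(1 - η)))) := by ring
      rw [e3, e1, e2, hK']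
      exact le_of_eq (by ring)
    have hS : ∀ x ∈ Sy 2 m3 (kr k (r3 1)) Y, Y < |(x : ℝ)| := fun x hx => by simpa using hx 0
    have hρ0 : 0 ≤ K' * Y ^ (-c) := by positivity
    obtain ⟨n, hn⟩ := pow_unbounded_of_one_lt (2 * X / Y) (show (1 : ℝ) < 2 by norm_num)
    have h1 := I1_sum hS hρ0 (fun a _ ha => by
      have := hbase (a / |(k : ℝ)|) (by positivity)
      rw [mul_div_cancel₀ _ hkp.ne'] at this
      exact this) n (2 * X) (by linarith) (by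
      rw [div_lt_iff₀ hYp] at hn
      linarith)
    have hfin1 : {x : ℤ | |(x : ℝ)| ≤ X ∧ ∀ n : ℕ, Y < |(((Td k)^[n] x : ℤ) : ℝ)|} ⊆
        {x : ℤ | x ∈ Sy 2 m3 (kr k (r3 1)) Y ∧ |(x : ℝ)| < 2 * X} := by
      rintro x ⟨h1, h2⟩
      refine ⟨?_, by linarith⟩
      intro n
      rw [kr_r3, Tm3]
      exact h2 n
    have h2 := Set.ncard_le_ncard hfin1 (I1_window_finite _ _)
    have h3 : ({x : ℤ | |(x : ℝ)| ≤ X ∧ ∀ n : ℕ, Y < |(((Td k)^[n] x : ℤ) : ℝ)|}.ncard : ℝ) ≤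
        ({x : ℤ | x ∈ Sy 2 m3 (kr k (r3 1)) Y ∧ |(x : ℝ)| < 2 * X}.ncard : ℝ) := by exact_mod_cast h2
    refine (h3.trans h1).trans ?_
    have h5 : 0 ≤ X / Y ^ c := by positivity
    calc 2 * (K' * Y ^ (-c)) * (2 * X) = 4 * K' * (X / Y ^ c) := by
          rw [Real.rpow_neg hYp.le]; field_simp; ring
      _ ≤ _ := by
          apply mul_le_mul_of_nonneg_right _ h5
          linarith

end Pool.Agent.TH930.UD
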