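import Pool.Agent.TH930.UD.Pass
import Pool.Agent.TH235.UB.Three

set_option autoImplicit false

/-! The stuck sets of the `3x+k` maps, with words of length `log₂ (|k| 2 ^ i)`. -/

namespace Pool.Agent.TH930.UD

open Finset
open Pool.Agent.H828R3.GP (m3 r3 adm3 Tm3)
open Pool.Agent.H499R2.ND (Td)
open Pool.Agent.H319R3.GC (Adm Tm PP)
open Pool.Agent.W36 (kr)
open Pool.Agent.TH235.UB (kr_r3 PP_m3 stay_multV)
open Pool.Agent.TH930.EBQ (words mem_words sum_words_succ ones wd T)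

/-- the sum over all words -/
theorem sum_weight (s : ℝ) (n : ℕ) :
    ∑ v ∈ words n, ((3 : ℝ) ^ ones v / 2 ^ n) ^ s = ((1 / 2 : ℝ) ^ s + (3 / 2 : ℝ) ^ s) ^ n := by
  induction n with
  | zero => simp [words]
  | succ n ih =>
    rw [sum_words_succ, pow_succ ((1 / 2 : ℝ) ^ s + (3 / 2 : ℝ) ^ s), ← ih, sum_mul]
    refine sum_congr rfl fun v _ => ?_
    rw [EBQ.ones_cons_true, EBQ.ones_cons_false]
    have e1 : (3 : ℝ) ^ (ones v + 1) / 2 ^ (n + 1) = (3 ^ ones v / 2 ^ n) * (3 / 2) := by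
      rw [pow_succ, pow_succ]; field_simp
    have e2 : (3 : ℝ) ^ ones v / 2 ^ (n + 1) = (3 ^ ones v / 2 ^ n) * (1 / 2) := by
      rw [pow_succ]; field_simp
    rw [e1, e2, Real.mul_rpow (by positivity) (by norm_num), Real.mul_rpow (by positivity) (by norm_num)]
    ring

/-- the words with a large multiplier -/
def BW (K : ℕ) : Finset (List Bool) := (words K).filter (fun v => 2 ^ K ≤ 4 * 3 ^ ones v)

theorem card_BW {s η : ℝ} (hs : 0 ≤ s) (hsum : (1 / 2 : ℝ) ^ s + (3 / 2 : ℝ) ^ s ≤ 2 ^ η) (K : ℕ) :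
    ((BW K).card : ℝ) ≤ 4 ^ s * (2 ^ η) ^ K := by
  have h1 : ∀ v ∈ BW K, (1 : ℝ) ≤ 4 ^ s * ((3 : ℝ) ^ ones v / 2 ^ K) ^ s := by
    intro v hv
    unfold BW at hv
    rw [mem_filter] at hv
    have h2 : (2 : ℝ) ^ K ≤ 4 * 3 ^ ones v := by exact_mod_cast hv.2
    rw [← Real.mul_rpow (by norm_num) (by positivity)]
    apply Real.one_le_rpow _ hs
    rw [← mul_div_assoc, le_div_iff₀ (by positivity)]
    linarith
  have h0 : 0 ≤ (1 / 2 : ℝ) ^ s + (3 / 2 : ℝ) ^ s := by positivity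
  calc ((BW K).card : ℝ) = ∑ v ∈ BW K, (1 : ℝ) := by simp
    _ ≤ ∑ v ∈ BW K, 4 ^ s * ((3 : ℝ) ^ ones v / 2 ^ K) ^ s := sum_le_sum h1
    _ ≤ ∑ v ∈ words K, 4 ^ s * ((3 : ℝ) ^ ones v / 2 ^ K) ^ s := by
        apply sum_le_sum_of_subset_of_nonneg (filter_subset _ _)
        intro v _ _
        positivity
    _ = 4 ^ s * ((1 / 2 : ℝ) ^ s + (3 / 2 : ℝ) ^ s) ^ K := by rw [← mul_sum, sum_weight]
    _ ≤ 4 ^ s * (2 ^ η) ^ K := by
        apply mul_le_mul_of_nonneg_left _ (by positivity)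
        exact pow_le_pow_left₀ h0 hsum K

/-- the word of a stuck point is bad -/
theorem wd_mem_BW {k : ℤ} (hk : Odd k) {M i K : ℕ} (hi : 1 ≤ i) (hK : K ≤ M * i)
    (hK2 : 4 * (K : ℝ) ≤ (2 : ℝ) ^ (i - 1)) {x : ℤ} (hx : x ∈ SjM k 2 m3 (r3 1) M i) :
    wd k K x ∈ BW K := by
  unfold SjM at hx
  rw [mem_filter, mem_Icc] at hx
  push_cast at hx
  obtain ⟨-, hx3, hx4⟩ := hx
  rw [kr_r3, Tm3] at hx4
  unfold BW
  rw [mem_filter]
  refine ⟨EBQ.wd_mem k K x, ?_⟩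
  exact stay_multV hk hi hK2 hx3.le (fun n hn => hx4 n (hn.trans hK))

/-- THE STUCK SETS -/
theorem card_SjM {s η : ℝ} (hs : 0 ≤ s) (hη : 0 ≤ η)
    (hsum : (1 / 2 : ℝ) ^ s + (3 / 2 : ℝ) ^ s ≤ 2 ^ η) {k : ℤ} (hk : Odd k) {M i : ℕ} (hi : 1 ≤ i)
    (hM : i + Nat.size k.natAbs + 1 ≤ M * i)
    (hM2 : 4 * ((M : ℝ) * i) ≤ (2 : ℝ) ^ (i - 1)) :
    ((SjM k 2 m3 (r3 1) M i).card : ℝ) ≤ |(k : ℝ)| * ((4 ^ s * 4 ^ η * |(k : ℝ)| ^ (-(1 - η))) *
      ((((2 : ℕ) : ℝ) ^ η) ^ i)) := by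
  classical
  have hk0 : k ≠ 0 := by rintro rfl; simp at hk
  have hkp : 0 < |(k : ℝ)| := abs_pos.2 (by exact_mod_cast hk0)
  set K := i + Nat.size k.natAbs + 1 with hK
  have hKM : 4 * (K : ℝ) ≤ (2 : ℝ) ^ (i - 1) := by
    have : (K : ℝ) ≤ (M : ℝ) * i := by exact_mod_cast hM
    linarith
  have hlt : |k| < 2 ^ Nat.size k.natAbs := by
    have h1 := Nat.lt_size_self k.natAbs
    rw [Int.abs_eq_natAbs]
    exact_mod_cast h1
  have hle : (2 : ℝ) ^ Nat.size k.natAbs ≤ 2 * |(k : ℝ)| := by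
    have h1 : 2 ^ (Nat.size k.natAbs - 1) ≤ k.natAbs := by
      apply Nat.lt_size.1
      have : 0 < Nat.size k.natAbs := Nat.size_pos.2 (Int.natAbs_pos.2 hk0)
      omega
    have h2 : (2 : ℝ) ^ (Nat.size k.natAbs - 1) ≤ |(k : ℝ)| := by
      rw [← Int.cast_abs, Int.abs_eq_natAbs]
      exact_mod_cast h1
    have h3 : (2 : ℝ) ^ Nat.size k.natAbs = 2 * 2 ^ (Nat.size k.natAbs - 1) := by
      rw [← pow_succ']
      congr 1
      have : 0 < Nat.size k.natAbs := Nat.size_pos.2 (Int.natAbs_pos.2 hk0)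
      omega
    rw [h3]; linarith
  have hcard : (SjM k 2 m3 (r3 1) M i).card ≤ (BW K).card := by
    apply card_le_card_of_injOn (fun x => wd k K x)
    · intro x hx
      exact wd_mem_BW hk hi hM hKM (by exact_mod_cast hx)
    · intro x hx y hy hxy
      have h1 := EBQ.wd_inj hk hxy
      have hb : ∀ z : ℤ, z ∈ (SjM k 2 m3 (r3 1) M i : Set ℤ) → |z| < |k| * 2 ^ i := by
        intro z hz
        rw [mem_coe] at hz
        unfold SjM at hz
        rw [mem_filter] at hz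
        have := hz.2.1
        push_cast at this
        exact_mod_cast this
      have h2 := hb x hx
      have h3 := hb y hy
      have h4 : |x - y| < 2 ^ K := by
        have e1 : |x - y| ≤ |x| + |y| := abs_sub x y
        have e2 : (2 : ℤ) ^ K = 2 * (2 ^ Nat.size k.natAbs * 2 ^ i) := by
          rw [hK, pow_succ, pow_add]; ring
        have e3 : |k| * 2 ^ i ≤ 2 ^ Nat.size k.natAbs * 2 ^ i :=
          mul_le_mul_of_nonneg_right hlt.le (by positivity)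
        rw [e2]; linarith
      have h5 := Int.eq_zero_of_abs_lt_dvd h1 h4
      linarith
  have h1 : ((SjM k 2 m3 (r3 1) M i).card : ℝ) ≤ ((BW K).card : ℝ) := by exact_mod_cast hcard
  refine h1.trans ((card_BW hs hsum K).trans ?_)
  push_cast
  have h2 : ((2 : ℝ) ^ η) ^ K = ((2 : ℝ) ^ K) ^ η := by
    rw [← Real.rpow_natCast, ← Real.rpow_natCast, ← Real.rpow_mul (by norm_num),
      ← Real.rpow_mul (by norm_num), mul_comm]
  have h3 : (2 : ℝ) ^ K ≤ 4 * (|(k : ℝ)| * 2 ^ i) := by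
    have e2 : (2 : ℝ) ^ K = 2 * (2 ^ Nat.size k.natAbs * 2 ^ i) := by
      rw [hK, pow_succ, pow_add]; ring
    rw [e2]
    have : (2 : ℝ) ^ Nat.size k.natAbs * 2 ^ i ≤ 2 * |(k : ℝ)| * 2 ^ i :=
      mul_le_mul_of_nonneg_right hle (by positivity)
    linarith
  have h4 : ((2 : ℝ) ^ η) ^ i = ((2 : ℝ) ^ i) ^ η := by
    rw [← Real.rpow_natCast, ← Real.rpow_natCast, ← Real.rpow_mul (by norm_num),
      ← Real.rpow_mul (by norm_num), mul_comm]
  rw [h2, h4]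
  calc (4 : ℝ) ^ s * ((2 : ℝ) ^ K) ^ η ≤ 4 ^ s * (4 * (|(k : ℝ)| * 2 ^ i)) ^ η := by
        apply mul_le_mul_of_nonneg_left _ (by positivity)
        exact Real.rpow_le_rpow (by positivity) h3 hη
    _ = 4 ^ s * (4 ^ η * (|(k : ℝ)| ^ η * ((2 : ℝ) ^ i) ^ η)) := by
        rw [Real.mul_rpow (by norm_num) (by positivity), Real.mul_rpow hkp.le (by positivity)]
    _ = 4 ^ s * (4 ^ η * ((|(k : ℝ)| * |(k : ℝ)| ^ (-(1 - η))) * ((2 : ℝ) ^ i) ^ η)) := by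
        congr 3
        rw [show η = 1 + -(1 - η) by ring, Real.rpow_add hkp, Real.rpow_one]
        ring_nf
    _ = _ := by ring

end Pool.Agent.TH930.UD
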